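import Pool.Agent.H72.ES.Choose5

/-! # [H99 TA COV] Covering integer points by few lines -/

namespace Pool.Agent.H99.TA

open Finset Pool.Agent.H72.ES

/-- `S` is covered by `N` lines -/
def Cov (N : ℕ) (S : Set (ℤ × ℤ)) : Prop :=
  ∃ T : Finset (ℤ × ℤ × ℤ), T.card ≤ N ∧ (∀ l ∈ T, l.1 ≠ 0 ∨ l.2.1 ≠ 0) ∧
    ∀ P ∈ S, ∃ l ∈ T, l.1 * P.1 + l.2.1 * P.2 = l.2.2

theorem Cov.mono {N M : ℕ} {S S' : Set (ℤ × ℤ)} (h : Cov N S) (hNM : N ≤ M) (hS : S' ⊆ S) : Cov M S' := by
  obtain ⟨T, h1, h2, h3⟩ := h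
  exact ⟨T, h1.trans hNM, h2, fun P hP => h3 P (hS hP)⟩

theorem Cov.union {N M : ℕ} {S S' : Set (ℤ × ℤ)} (h : Cov N S) (h' : Cov M S') : Cov (N + M) (S ∪ S') := by
  classical
  obtain ⟨T, h1, h2, h3⟩ := h
  obtain ⟨T', h1', h2', h3'⟩ := h'
  refine ⟨T ∪ T', (card_union_le _ _).trans (by omega), ?_, ?_⟩
  · intro l hl
    rcases mem_union.1 hl with hl | hl
    · exact h2 l hl
    · exact h2' l hl
  · intro P hP
    rcases hP with hP | hP
    · obtain ⟨l, hl, h4⟩ := h3 P hP
      exact ⟨l, mem_union_left _ hl, h4⟩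
    · obtain ⟨l, hl, h4⟩ := h3' P hP
      exact ⟨l, mem_union_right _ hl, h4⟩

theorem Cov.zero : Cov 0 (∅ : Set (ℤ × ℤ)) := ⟨∅, by simp, by simp, by simp⟩

theorem cov_biUnion {ι : Type} [DecidableEq ι] (I : Finset ι) (T : ι → Set (ℤ × ℤ)) (K : ℕ) (h : ∀ i ∈ I, Cov K (T i)) :
    Cov (I.card * K) {P | ∃ i ∈ I, P ∈ T i} := by
  classical
  induction I using Finset.induction_on with
  | empty =>
    refine Cov.zero.mono (by simp) ?_
    rintro P ⟨i, hi, _⟩
    simp at hi
  | insert a I ha ih =>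
    rw [card_insert_of_notMem ha]
    refine ((h a (mem_insert_self _ _)).union (ih fun i hi => h i (mem_insert_of_mem hi))).mono (by ring_nf; omega) ?_
    rintro P ⟨i, hi, hP⟩
    rcases mem_insert.1 hi with rfl | hi
    · exact Or.inl hP
    · exact Or.inr ⟨i, hi, hP⟩

/-- the line through two points -/
def ln (q : (ℤ × ℤ) × (ℤ × ℤ)) : ℤ × ℤ × ℤ :=
  (q.2.2 - q.1.2, q.1.1 - q.2.1, (q.2.2 - q.1.2) * q.1.1 + (q.1.1 - q.2.1) * q.1.2)

theorem card_lt (A : Finset (ℤ × ℤ)) (hA : A.card ≤ 4) :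
    ((A ×ˢ A).filter fun q => toLex q.1 < toLex q.2).card ≤ 6 := by
  classical
  obtain ⟨L, hL⟩ : ∃ L, L = (A ×ˢ A).filter fun q : (ℤ × ℤ) × (ℤ × ℤ) => toLex q.1 < toLex q.2 := ⟨_, rfl⟩
  have hmL : ∀ q, q ∈ L ↔ (q.1 ∈ A ∧ q.2 ∈ A) ∧ toLex q.1 < toLex q.2 := by
    intro q
    simp only [hL, mem_filter, mem_product]
  have hcard : (L.image Prod.swap).card = L.card := card_image_of_injective _ Prod.swap_injective
  have hdis : Disjoint L (L.image Prod.swap) := by
    rw [Finset.disjoint_left]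
    intro q hq hq'
    obtain ⟨r, hr, rfl⟩ := mem_image.1 hq'
    have h1 := ((hmL _).1 hq).2
    have h2 := ((hmL _).1 hr).2
    simp only [Prod.fst_swap, Prod.snd_swap] at h1
    exact lt_asymm h1 h2
  have hsub : L ∪ L.image Prod.swap ⊆ A.offDiag := by
    intro q hq
    rw [mem_offDiag]
    rcases mem_union.1 hq with hq | hq
    · have h1 := (hmL _).1 hq
      exact ⟨h1.1.1, h1.1.2, fun h => h1.2.ne (by rw [h])⟩
    · obtain ⟨r, hr, rfl⟩ := mem_image.1 hq
      have h1 := (hmL _).1 hr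
      simp only [Prod.fst_swap, Prod.snd_swap]
      exact ⟨h1.1.2, h1.1.1, fun h => h1.2.ne (by rw [h])⟩
  have h3 := card_le_card hsub
  rw [card_union_of_disjoint hdis, hcard, offDiag_card] at h3
  rw [← hL]
  have h4 : A.card * A.card - A.card ≤ 12 := by
    interval_cases A.card <;> norm_num
  omega

/-- if `S` has no five points without three on a line, it is covered by `6` lines -/
theorem cov6 (S : Finset (ℤ × ℤ)) (h : ¬ ∃ p : Fin 5 → ℤ × ℤ, (∀ i, p i ∈ S) ∧ Function.Injective p ∧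
      ∀ i j k, i ≠ j → i ≠ k → j ≠ k → ¬ Col (p i) (p j) (p k)) : Cov 6 (S : Set (ℤ × ℤ)) := by
  classical
  obtain ⟨U, hU⟩ : ∃ U, U = S.powerset.filter (fun A => ∀ a ∈ A, ∀ b ∈ A, ∀ c ∈ A, a ≠ b → a ≠ c → b ≠ c → ¬ Col a b c) :=
    ⟨_, rfl⟩
  obtain ⟨A, hA, hmax⟩ := U.exists_max_image Finset.card ⟨∅, by simp [hU]⟩
  have hmU : ∀ A, A ∈ U ↔ A ⊆ S ∧ ∀ a ∈ A, ∀ b ∈ A, ∀ c ∈ A, a ≠ b → a ≠ c → b ≠ c → ¬ Col a b c := by
    intro A
    simp only [hU, mem_filter, mem_powerset]
  obtain ⟨hAS, hAc⟩ := (hmU A).1 hA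
  have hA4 : A.card ≤ 4 := by
    by_contra hcon
    push Not at hcon
    obtain ⟨B, hBA, hB⟩ := exists_subset_card_eq (show 5 ≤ A.card by omega)
    have inj : ∀ i j, i ≠ j → ((B.equivFinOfCardEq hB).symm i : ℤ × ℤ) ≠ ((B.equivFinOfCardEq hB).symm j : ℤ × ℤ) :=
      fun i j hij he => hij ((Equiv.injective _) (Subtype.ext he))
    refine h ⟨fun i => ((B.equivFinOfCardEq hB).symm i : ℤ × ℤ), ?_, ?_, ?_⟩
    · exact fun i => hAS (hBA (Subtype.coe_prop _))
    · intro i j hij
      by_contra hne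
      exact inj i j hne hij
    · intro i j k hij hik hjk
      exact hAc _ (hBA (Subtype.coe_prop _)) _ (hBA (Subtype.coe_prop _)) _ (hBA (Subtype.coe_prop _))
        (inj _ _ hij) (inj _ _ hik) (inj _ _ hjk)
  have hline : ∀ a b P : ℤ × ℤ, Col a b P → (ln (a, b)).1 * P.1 + (ln (a, b)).2.1 * P.2 = (ln (a, b)).2.2 := by
    intro a b P hc
    unfold Col at hc
    simp only [ln]
    linarith
  by_cases hS1 : S.card ≤ 1
  · rcases Nat.le_one_iff_eq_zero_or_eq_one.1 hS1 with h0 | h0
    · rw [card_eq_zero.1 h0]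
      exact Cov.zero.mono (by norm_num) (by simp)
    · obtain ⟨P, hP⟩ := card_eq_one.1 h0
      refine ⟨{(1, 0, P.1)}, by simp, ?_, ?_⟩
      · intro l hl
        rw [mem_singleton.1 hl]
        left
        norm_num
      · intro R hR
        rw [hP] at hR
        simp only [coe_singleton, Set.mem_singleton_iff] at hR
        refine ⟨_, mem_singleton_self _, ?_⟩
        rw [hR]
        simp
  push Not at hS1
  -- every point of `S` lies on a line through two different points of `A`
  have hex : ∀ P ∈ S, ∃ a ∈ A, ∃ b ∈ A, a ≠ b ∧ Col a b P := by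
    intro P hP
    by_cases hPA : P ∈ A
    · have hA2 : ∃ b ∈ A, b ≠ P := by
        by_contra hcon
        push Not at hcon
        obtain ⟨R, hR, hRP⟩ : ∃ R ∈ S, R ≠ P := by
          by_contra hcon2
          push Not at hcon2
          have h5 : S ⊆ {P} := fun R hR => mem_singleton.2 (hcon2 R hR)
          have h6 := card_le_card h5
          simp at h6
          omega
        have h1 : insert R A ∈ U := by
          refine (hmU _).2 ⟨insert_subset hR hAS, ?_⟩
          intro a ha b hb c hc hab hac hbc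
          exfalso
          have h7 : ∀ x ∈ insert R A, x = R ∨ x = P := by
            intro x hx
            rcases mem_insert.1 hx with hx | hx
            · exact Or.inl hx
            · exact Or.inr (hcon x hx)
          rcases h7 a ha with e1 | e1 <;> rcases h7 b hb with e2 | e2 <;> rcases h7 c hc with e3 | e3 <;>
            first
            | exact hab (e1.trans e2.symm)
            | exact hac (e1.trans e3.symm)
            | exact hbc (e2.trans e3.symm)
        have h2 := hmax _ h1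
        rw [card_insert_of_notMem (fun h => hRP (hcon R h))] at h2
        omega
      obtain ⟨b, hb, hbP⟩ := hA2
      refine ⟨b, hb, P, hPA, hbP, ?_⟩
      unfold Col
      ring
    · by_contra hcon
      push Not at hcon
      have h1 : insert P A ∈ U := by
        refine (hmU _).2 ⟨insert_subset hP hAS, ?_⟩
        intro a ha b hb c hc hab hac hbc
        rcases mem_insert.1 ha with ha' | ha'
        · rcases mem_insert.1 hb with hb' | hb'
          · exact absurd (ha'.trans hb'.symm) hab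
          · rcases mem_insert.1 hc with hc' | hc'
            · exact absurd (ha'.trans hc'.symm) hac
            · intro h5
              rw [ha'] at h5
              exact hcon b hb' c hc' hbc h5.swap12.swap23
        · rcases mem_insert.1 hb with hb' | hb'
          · rcases mem_insert.1 hc with hc' | hc'
            · exact absurd (hb'.trans hc'.symm) hbc
            · intro h5
              rw [hb'] at h5
              exact hcon a ha' c hc' hac h5.swap23
          · rcases mem_insert.1 hc with hc' | hc'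
            · rw [hc']
              exact hcon a ha' b hb' hab
            · exact hAc a ha' b hb' c hc' hab hac hbc
      have h2 := hmax _ h1
      rw [card_insert_of_notMem hPA] at h2
      omega
  refine ⟨((A ×ˢ A).filter fun q => toLex q.1 < toLex q.2).image ln, ?_, ?_, ?_⟩
  · exact card_image_le.trans (card_lt A hA4)
  · intro l hl
    obtain ⟨q, hq, rfl⟩ := mem_image.1 hl
    by_contra hcon
    push Not at hcon
    obtain ⟨h1, h2⟩ := hcon
    simp only [ln] at h1 h2
    have h3 : q.1 = q.2 := Prod.ext (by omega) (by omega)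
    have h4 := (mem_filter.1 hq).2
    rw [h3] at h4
    exact lt_irrefl _ h4
  · intro P hP
    obtain ⟨a, ha, b, hb, hab, hc⟩ := hex P hP
    rcases lt_or_gt_of_ne (fun h => hab (toLex.injective h) : toLex a ≠ toLex b) with hlt | hlt
    · exact ⟨ln (a, b), mem_image_of_mem _ (mem_filter.2 ⟨mem_product.2 ⟨ha, hb⟩, hlt⟩), hline a b P hc⟩
    · exact ⟨ln (b, a), mem_image_of_mem _ (mem_filter.2 ⟨mem_product.2 ⟨hb, ha⟩, hlt⟩), hline b a P hc.swap12⟩

end Pool.Agent.H99.TA
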