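import Pool.Agent.H88.TZ.Def
import Pool.Agent.H8.UL.Two

/-! # [H99 TA DEF] Far points on ALL curves of a fibre, of any height: statements

`WnuS` is `H88/TZ` `WnsS` with a height `Q` for every point (`Q0` bounds the base curve `G`); the points are required to be larger than
`Q^2 bb n Q ^ (600000 n^2)`. `NruS` is `NrsS` with a height for every pair. -/

namespace Pool.Agent.H99.TA

open Finset Polynomial Pool.Agent.H72.ES Pool.Agent.H88.TF Pool.Agent.H88.TZ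

/-- WNU: the number of far points on all curves of a fibre, of any height -/
def WnuS : Prop := ∀ (n s Q0 : ℕ) (f : ℤ[X]) (G : ℕ → ℕ → ℤ), 3 ≤ s → s + 1 ≤ n → Norml n Q0 f G → Irreducible f →
  (∀ Q, Norml n Q f G → Ncs n s Q f G) →
  ∀ S : Finset (ℤ × ℤ), (∀ P ∈ S, ∃ Q F, Q0 ≤ Q ∧ Norml n Q f F ∧ Tops n s F G ∧ ev n F P.1 P.2 = 0 ∧
    (Q : ℝ) ^ 2 * bb n Q ^ (600000 * n ^ 2) ≤ ((max |P.1| |P.2| : ℤ) : ℝ)) → S.card ≤ 312 * n ^ 3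

/-- NRU: bounded exceptions in a fibre over the terms of degree `≥ n - s`, all heights at once; `H0` bounds the base curve -/
def NruS : Prop := ∀ (n s m H0 : ℕ), 3 ≤ s → s + 1 ≤ n → 2 ≤ m → (m + 1 ≤ s ∨ m ≤ s ∧ 2 * n + 1 ≤ 3 * s) → 2 ≤ H0 →
  ∀ G : MvPolynomial (Fin 2) ℤ, G.totalDegree = n → (∀ m, |G.coeff m| ≤ (H0 : ℤ)) →
  Irreducible (MvPolynomial.map (Int.castRingHom ℚ) (MvPolynomial.homogeneousComponent n G)) →
  (∀ t b : ℝ, n - m ≤ (MvPolynomial.aeval ![X, C t * X + C b] G : ℝ[X]).natDegree) →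
  ∀ T : Finset (MvPolynomial (Fin 2) ℤ × (ℤ × ℤ)), (∀ q ∈ T, (q.1 - G).totalDegree ≤ n - s - 1 ∧
    MvPolynomial.eval ![q.2.1, q.2.2] q.1 = 0 ∧
    ∃ H : ℕ, H0 ≤ H ∧ (∀ m, |q.1.coeff m| ≤ (H : ℤ)) ∧ (H : ℤ) ^ (6000000 * n ^ 5) < max |q.2.1| |q.2.2|) →
  T.card ≤ 312 * n ^ 3

end Pool.Agent.H99.TA
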