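import Pool.Agent.H99.TA.Def

/-! # [H88 TA NRU] Bounded exceptions in a fibre over the terms of degree `≥ n - s`, all heights at once (as `H88/TZ/Nrs.lean`) -/

namespace Pool.Agent.H99.TA

open Finset Polynomial Pool.Agent.H72.ES Pool.Agent.H88.TF Pool.Agent.H88.TZ

private theorem top4_of_tops {n s : ℕ} (hs : 3 ≤ s) {F G : ℕ → ℕ → ℤ} (h : Tops n s F G) :
    Top4 n F G := fun i j hij _ => h i j hij (by omega)

private theorem tops_nrm {n s : ℕ} {F G : ℕ → ℕ → ℤ} (h : Tops n s F G) :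
    Tops n s (nrm n F) (nrm n G) := by
  intro i j hij h2
  have h0 : F 0 n = G 0 n := h 0 n (by omega) (by omega)
  by_cases hj : j = n
  · simp [nrm, hj]
  · simp only [nrm, hj, if_false]
    rw [h0, h i j hij h2]

private theorem ev_nrm' {S : Type*} [CommRing S] {n : ℕ} (hn : 1 ≤ n) (G : ℕ → ℕ → ℤ) (x y : S) :
    ev n (cst S (nrm n G)) x (((G 0 n : ℤ) : S) * y) =
      ((G 0 n : ℤ) : S) ^ (n - 1) * ev n (cst S G) x y := by
  unfold ev
  rw [mul_sum]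
  refine sum_congr rfl fun i hi => ?_
  rw [mul_sum]
  refine sum_congr rfl fun j hj => ?_
  simp only [mem_range] at hi hj
  have h := nrm_mul_pow hn G i j (by omega)
  have h' : ((nrm n G i j : ℤ) : S) * ((G 0 n : ℤ) : S) ^ j =
      ((G 0 n : ℤ) : S) ^ (n - 1) * ((G i j : ℤ) : S) := by
    rw [← Int.cast_pow, ← Int.cast_mul, h]
    push_cast
    ring
  simp only [cst]
  rw [mul_pow]
  linear_combination x ^ i * y ^ j * h'

private theorem deg_nrm {n d : ℕ} (hn : 1 ≤ n) {G : ℕ → ℕ → ℤ} (ha : G 0 n ≠ 0)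
    (hdeg : ∀ t b : ℝ, d ≤ (ev n (cst ℝ[X] G) X (C t * X + C b)).natDegree) (t b : ℝ) :
    d ≤ (ev n (cst ℝ[X] (nrm n G)) X (C t * X + C b)).natDegree := by
  have haR : ((G 0 n : ℤ) : ℝ) ≠ 0 := by exact_mod_cast ha
  set a : ℝ := ((G 0 n : ℤ) : ℝ) with hadef
  have e1 : ((G 0 n : ℤ) : ℝ[X]) = C a := by
    rw [hadef]
    simp
  have e2 : C t * X + C b = ((G 0 n : ℤ) : ℝ[X]) * (C (t / a) * X + C (b / a)) := by
    rw [e1, mul_add, ← mul_assoc, ← C_mul, ← C_mul]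
    congr 2
    · congr 2
      field_simp
    · field_simp
  rw [e2, ev_nrm' hn, e1, ← C_pow, natDegree_C_mul (pow_ne_zero _ haR)]
  exact hdeg _ _

private theorem threshold_le6 {n H : ℕ} (hn : 4 ≤ n) (hH : 2 ≤ H) :
    (((2 * H ^ n : ℕ) : ℝ)) ^ 2 * bb n (2 * H ^ n) ^ (600000 * n ^ 2) ≤
      (H : ℝ) ^ (6000000 * n ^ 5) := by
  have hHR : (1 : ℝ) ≤ H := by exact_mod_cast (by omega : 1 ≤ H)
  have hQH : ((2 * H ^ n : ℕ) : ℝ) ≤ (H : ℝ) ^ (n + 1) := by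
    push_cast
    have : (2 : ℝ) ≤ H := by exact_mod_cast hH
    calc 2 * (H : ℝ) ^ n ≤ H * (H : ℝ) ^ n := by gcongr
      _ = (H : ℝ) ^ (n + 1) := by ring
  unfold bb
  set Q : ℝ := ((2 * H ^ n : ℕ) : ℝ) with hQ
  have hQ0 : (0 : ℝ) ≤ Q := Nat.cast_nonneg _
  calc Q ^ 2 * (Q ^ (7 * n ^ 2)) ^ (600000 * n ^ 2) = Q ^ (2 + 4200000 * n ^ 4) := by
        rw [← pow_mul, ← pow_add]
        congr 1
        ring
    _ ≤ ((H : ℝ) ^ (n + 1)) ^ (2 + 4200000 * n ^ 4) := pow_le_pow_left₀ hQ0 hQH _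
    _ = (H : ℝ) ^ ((n + 1) * (2 + 4200000 * n ^ 4)) := by rw [← pow_mul]
    _ ≤ (H : ℝ) ^ (6000000 * n ^ 5) := by
        refine pow_le_pow_right₀ hHR ?_
        have h3 : 4 * (n + 1) ≤ 5 * n := by omega
        have h4 : 2 + 4200000 * n ^ 4 ≤ 4200001 * n ^ 4 := by
          have : 2 ≤ n ^ 4 := by
            calc 2 ≤ 4 ^ 4 := by norm_num
              _ ≤ n ^ 4 := Nat.pow_le_pow_left hn 4
          omega
        have h5 : 4 * ((n + 1) * (2 + 4200000 * n ^ 4)) ≤ 4 * (6000000 * n ^ 5) := by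
          calc 4 * ((n + 1) * (2 + 4200000 * n ^ 4)) = (4 * (n + 1)) * (2 + 4200000 * n ^ 4) := by ring
            _ ≤ (5 * n) * (4200001 * n ^ 4) := Nat.mul_le_mul h3 h4
            _ = 21000005 * n ^ 5 := by ring
            _ ≤ 24000000 * n ^ 5 := Nat.mul_le_mul_right _ (by norm_num)
            _ = 4 * (6000000 * n ^ 5) := by ring
        omega

/-- the points of the curves of a fibre, every curve with its own height -/
private theorem main_countu (h1 : WnuS) (h2 : DgsS) {n s m H0 : ℕ} (hs3 : 3 ≤ s) (hsn : s + 1 ≤ n) (hm2 : 2 ≤ m)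
    (hm : m + 1 ≤ s ∨ m ≤ s ∧ 2 * n + 1 ≤ 3 * s) (hH0 : 2 ≤ H0)
    (G : ℕ → ℕ → ℤ) (hG : ∀ i j, i + j ≤ n → |G i j| ≤ (H0 : ℤ)) (ha : G 0 n ≠ 0)
    (hirr : Irreducible (leadQ n G))
    (hdeg : ∀ t b : ℝ, n - m ≤ (ev n (cst ℝ[X] G) X (C t * X + C b)).natDegree)
    (S : Finset (ℤ × ℤ))
    (hS : ∀ P ∈ S, ∃ H : ℕ, H0 ≤ H ∧ (H : ℤ) ^ (6000000 * n ^ 5) < max |P.1| |P.2| ∧
      ∃ F : ℕ → ℕ → ℤ, (∀ i j, i + j ≤ n → |F i j| ≤ (H : ℤ)) ∧ Tops n s F G ∧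
        ev n F P.1 P.2 = 0) :
    S.card ≤ 312 * n ^ 3 := by
  classical
  have hn4 : 4 ≤ n := by omega
  set a := G 0 n with hadef
  have hirr' := lead_nrm_irreducible (by omega : 1 ≤ n) G ha hirr
  set g : ℤ × ℤ → ℤ × ℤ := fun P => (P.1, a * P.2) with hg
  have hginj : Function.Injective g := by
    intro P P' h
    simp only [hg, Prod.mk.injEq] at h
    exact Prod.ext h.1 (mul_left_cancel₀ ha h.2)
  have hmax : ∀ P : ℤ × ℤ, max |P.1| |P.2| ≤ max |P.1| |a * P.2| := by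
    intro P
    refine max_le_max le_rfl ?_
    rw [abs_mul]
    have : 1 ≤ |a| := Int.one_le_abs ha
    nlinarith [abs_nonneg P.2]
  rw [← card_image_of_injective S hginj]
  have hN : Norml n (2 * H0 ^ n) (lead n (nrm n G)) (nrm n G) :=
    norml_nrm hn4 hH0 (fun i j _ _ => rfl) hG
  have hNcs : ∀ Q, Norml n Q (lead n (nrm n G)) (nrm n G) → Ncs n s Q (lead n (nrm n G)) (nrm n G) := by
    intro Q hNQ θ hθ O br
    obtain ⟨r, hr2, hrm, hne, hlo⟩ := h2 n m _ _ _ hm2 (by omega) hNQ (deg_nrm (by omega) ha hdeg) θ hθ O br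
    exact ⟨r, ⟨hr2, by omega, by omega, hne, hlo⟩⟩
  refine h1 n s (2 * H0 ^ n) (lead n (nrm n G)) (nrm n G) hs3 hsn hN hirr' hNcs (S.image g) ?_
  intro P hP
  obtain ⟨R, hR, rfl⟩ := mem_image.1 hP
  obtain ⟨H, hHH, hbig, F, hF, hFG, h0⟩ := hS R hR
  have hH : 2 ≤ H := hH0.trans hHH
  refine ⟨2 * H ^ n, nrm n F, Nat.mul_le_mul_left _ (Nat.pow_le_pow_left hHH n),
    norml_nrm hn4 hH (top4_of_tops hs3 hFG) hF, tops_nrm hFG, ?_, ?_⟩
  · have hF0 : F 0 n = a := hFG 0 n (by omega) (by omega)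
    have h3 := ev_nrm (by omega : 1 ≤ n) F R.1 R.2
    rw [hF0] at h3
    simp only [hg]
    rw [h3, h0, mul_zero]
  · have h3 : (((H : ℤ) ^ (6000000 * n ^ 5) : ℤ) : ℝ) ≤ ((max |(g R).1| |(g R).2| : ℤ) : ℝ) := by
      exact_mod_cast (hbig.le.trans (hmax R))
    refine le_trans (threshold_le6 hn4 hH) ?_
    push_cast at h3 ⊢
    exact h3

private theorem tops_arrM {n s : ℕ} (hs : s + 1 ≤ n) {F G : MvPolynomial (Fin 2) ℤ}
    (h : (F - G).totalDegree ≤ n - s - 1) : Tops n s (arrM F) (arrM G) := by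
  intro i j _ h2
  have h1 := arrM_supp h i j (by omega)
  have h2 : arrM (F - G) i j = arrM F i j - arrM G i j := by
    simp [arrM]
  rw [h2] at h1
  linarith

theorem nru (h1 : WnuS) (h2 : DgsS) : NruS := by
  intro n s m H0 hs3 hsn hm2 hm hH0 G hdeg hGH hirr hcon T hT
  classical
  obtain ⟨ha, hirr'⟩ := leadQ_of_irreducible (by omega : 2 ≤ n) hirr
  have hdegG : ∀ t b : ℝ, n - m ≤ (ev n (cst ℝ[X] (arrM G)) X (C t * X + C b)).natDegree := by
    intro t b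
    have h3 := hcon t b
    have h4 : MvPolynomial.aeval ![X, C t * X + C b] G =
        ev n (cst ℝ[X] (arrM G)) X (C t * X + C b) := by
      rw [← eval₂_arrM hdeg.le, MvPolynomial.aeval_def]
      congr 1
    rw [h4] at h3
    exact h3
  have hdegT : ∀ q ∈ T, q.1.totalDegree ≤ n := fun q hq =>
    totalDegree_le_of_sub hdeg.le (by omega) (hT q hq).1
  have htop : ∀ q ∈ T, Tops n s (arrM q.1) (arrM G) := fun q hq => tops_arrM hsn (hT q hq).1
  have hinj : Set.InjOn (fun q : MvPolynomial (Fin 2) ℤ × (ℤ × ℤ) => q.2) T := by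
    intro q hq r hr hqr
    have hq' : q ∈ T := hq
    have hr' : r ∈ T := hr
    simp only at hqr
    obtain ⟨-, hq0, Hq, hHq, hq1, hq2⟩ := hT q hq'
    obtain ⟨-, hr0, Hr, hHr, hr1, hr2⟩ := hT r hr'
    have h3 : arrM q.1 = arrM r.1 := by
      obtain ⟨H, hH, hHq2, hHr2, hHP⟩ : ∃ H : ℕ, 2 ≤ H ∧ Hq ≤ H ∧ Hr ≤ H ∧
          (H : ℤ) ^ (6000000 * n ^ 5) < max |q.2.1| |q.2.2| := by
        rcases le_total Hq Hr with h | h
        · exact ⟨Hr, hH0.trans hHr, h, le_rfl, by rw [hqr]; exact hr2⟩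
        · exact ⟨Hq, hH0.trans hHq, le_rfl, h, hq2⟩
      have hH1 : (1 : ℤ) ≤ (H : ℤ) := by exact_mod_cast (by omega : 1 ≤ H)
      have hHP2 : (H : ℤ) ^ (600 * n ^ 5) < max |q.2.1| |q.2.2| :=
        lt_of_le_of_lt (pow_le_pow_right₀ hH1 (Nat.mul_le_mul_right _ (by norm_num))) hHP
      refine shared_point (by omega) hH (arrM G) ha hirr' (arrM q.1) (arrM r.1)
        (fun i j _ => (hq1 _).trans (by exact_mod_cast hHq2)) (fun i j _ => (hr1 _).trans (by exact_mod_cast hHr2))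
        (top4_of_tops hs3 (htop q hq')) (top4_of_tops hs3 (htop r hr'))
        (arrM_supp (hdegT q hq')) (arrM_supp (hdegT r hr')) q.2 hHP2 ?_ ?_
      · rw [← eval_arrM (hdegT q hq')]
        exact hq0
      · rw [hqr, ← eval_arrM (hdegT r hr')]
        exact hr0
    exact Prod.ext (arrM_inj h3) hqr
  rw [← card_image_of_injOn hinj]
  refine main_countu h1 h2 hs3 hsn hm2 hm hH0 (arrM G) (fun i j _ => hGH _) ha hirr' hdegG _ ?_
  intro P hP
  obtain ⟨q, hq, rfl⟩ := mem_image.1 hP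
  obtain ⟨-, hq0, Hq, hHq, hq1, hq2⟩ := hT q hq
  refine ⟨Hq, hHq, hq2, arrM q.1, fun i j _ => hq1 _, htop q hq, ?_⟩
  rw [← eval_arrM (hdegT q hq)]
  exact hq0

end Pool.Agent.H99.TA
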