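import Pool.Agent.H88.TZ.Fin
import Pool.Agent.H99.TA.Nru

/-! # [H88 TA FAR] The clauses on ALL curves `F + c = 0` and `F + L = 0`, of any height -/

namespace Pool.Agent.H99.TA

open MvPolynomial Pool.Agent.H8.AA Pool.Agent.H8.VX

/-- all curves `F + L = 0`, `deg L ≤ e`, of any height: together at most `312 n^3` integer points outside their boxes -/
theorem farU (h1 : WnuS) (n e : ℕ) (he : e + 4 ≤ n) (B S : ℕ) (hB : 2 ≤ B) (hS : 1 ≤ S)
    (F : MvPolynomial (Fin 2) ℤ) (hF : F.totalDegree ≤ n)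
    (hirr : Irreducible (map (Int.castRingHom ℚ) (homogeneousComponent n F)))
    (hflex : ∀ t b : ℝ, (if 3 * e + 4 ≤ n then e + 1 else e + 2) ≤
      (aeval ![Polynomial.X, Polynomial.C t * Polynomial.X + Polynomial.C b] F : Polynomial ℝ).natDegree)
    (hFB : ∀ m : Fin 2 →₀ ℕ, m.degree = n → |F.coeff m| ≤ (B : ℤ))
    (hFb : ∀ m : Fin 2 →₀ ℕ, m.degree < n → |F.coeff m| ≤ (S : ℤ) ^ (n - m.degree)) :
    {q : MvPolynomial (Fin 2) ℤ × (Fin 2 → ℤ) | q.1.totalDegree ≤ e ∧ eval q.2 (F + q.1) = 0 ∧ ∃ h : ℕ, 1 ≤ h ∧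
      (∀ m, |q.1.coeff m| ≤ (h : ℤ)) ∧
      ((B : ℤ) * S ^ n * h) ^ (6000000 * n ^ 5) < max |q.2 0| |q.2 1|}.encard ≤ (312 * n ^ 3 : ℕ) := by
  classical
  have hn : 4 ≤ n := by omega
  have hSn1 : 1 ≤ S ^ n := Nat.one_le_pow _ _ hS
  have hdeg : F.totalDegree = n := by
    refine le_antisymm hF ?_
    by_contra hcon
    push Not at hcon
    have h1 : homogeneousComponent n F = 0 := homogeneousComponent_eq_zero n F hcon
    rw [h1, map_zero] at hirr
    exact hirr.ne_zero rfl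
  -- the heights
  have hht : ∀ (L : MvPolynomial (Fin 2) ℤ) (h : ℕ), 1 ≤ h → L.totalDegree ≤ e → (∀ m, |L.coeff m| ≤ (h : ℤ)) →
      ∀ m, |(F + L).coeff m| ≤ ((B * S ^ n * h : ℕ) : ℤ) := by
    intro L h hh hLd hL m
    have hBh : B ≤ B * S ^ n * h :=
      (Nat.le_mul_of_pos_right _ hSn1).trans (Nat.le_mul_of_pos_right _ hh)
    have hsum : S ^ n + h ≤ B * S ^ n * h := by
      have h1 : S ^ n + h ≤ 2 * (S ^ n * h) := by nlinarith
      have h2 : 2 * (S ^ n * h) ≤ B * (S ^ n * h) := Nat.mul_le_mul_right _ hB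
      rw [mul_assoc]
      exact h1.trans h2
    have hsz : (S : ℤ) ^ n + h ≤ ((B * S ^ n * h : ℕ) : ℤ) := by exact_mod_cast hsum
    have hSd : ∀ d, (S : ℤ) ^ (n - d) ≤ (S : ℤ) ^ n := by
      intro d
      exact_mod_cast Nat.pow_le_pow_right hS (by omega)
    rw [coeff_add]
    rcases Nat.lt_or_ge m.degree n with h1 | h1
    · have h2 := (hFb m h1).trans (hSd _)
      calc |F.coeff m + L.coeff m| ≤ |F.coeff m| + |L.coeff m| := abs_add_le _ _
        _ ≤ (S : ℤ) ^ n + h := add_le_add h2 (hL m)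
        _ ≤ ((B * S ^ n * h : ℕ) : ℤ) := hsz
    · have h2 : L.coeff m = 0 := by
        by_contra h3
        have h4 := le_totalDegree (MvPolynomial.mem_support_iff.2 h3)
        have h5 : (m.sum fun _ e => e) = m.degree := rfl
        omega
      rw [h2, add_zero]
      rcases h1.lt_or_eq with h6 | h6
      · have h7 : F.coeff m = 0 := by
          by_contra h3
          have h4 := le_totalDegree (MvPolynomial.mem_support_iff.2 h3)
          have h5 : (m.sum fun _ e => e) = m.degree := rfl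
          omega
        rw [h7, abs_zero]
        positivity
      · refine (hFB m h6.symm).trans ?_
        exact_mod_cast hBh
  have hbase : ∀ m, |F.coeff m| ≤ ((B * S ^ n : ℕ) : ℤ) := by
    intro m
    rcases Nat.lt_trichotomy m.degree n with h1 | h1 | h1
    · refine (hFb m h1).trans ?_
      have h2 : S ^ (n - m.degree) ≤ B * S ^ n :=
        (Nat.pow_le_pow_right hS (by omega)).trans (Nat.le_mul_of_pos_left _ (by omega))
      exact_mod_cast h2
    · refine (hFB m h1).trans ?_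
      have h2 : B ≤ B * S ^ n := Nat.le_mul_of_pos_right _ hSn1
      exact_mod_cast h2
    · have h7 : F.coeff m = 0 := by
        by_contra h3
        have h4 := le_totalDegree (MvPolynomial.mem_support_iff.2 h3)
        have h5 : (m.sum fun _ e => e) = m.degree := rfl
        omega
      rw [h7, abs_zero]
      positivity
  obtain ⟨g, hg⟩ : ∃ g : MvPolynomial (Fin 2) ℤ × (Fin 2 → ℤ) → MvPolynomial (Fin 2) ℤ × (ℤ × ℤ),
      g = fun q => (F + q.1, (q.2 0, q.2 1)) := ⟨_, rfl⟩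
  have hinj : Function.Injective g := by
    rintro ⟨L, P⟩ ⟨L', P'⟩ hPQ
    rw [hg] at hPQ
    simp only [Prod.mk.injEq, add_right_inj] at hPQ
    refine Prod.ext hPQ.1 ?_
    funext i
    fin_cases i
    · exact hPQ.2.1
    · exact hPQ.2.2
  -- every finite subset is small
  have hfs : ∀ T : Finset (MvPolynomial (Fin 2) ℤ × (Fin 2 → ℤ)),
      (∀ q ∈ T, q.1.totalDegree ≤ e ∧ eval q.2 (F + q.1) = 0 ∧ ∃ h : ℕ, 1 ≤ h ∧
        (∀ m, |q.1.coeff m| ≤ (h : ℤ)) ∧
        ((B : ℤ) * S ^ n * h) ^ (6000000 * n ^ 5) < max |q.2 0| |q.2 1|) → T.card ≤ 312 * n ^ 3 := by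
    intro T hT
    rw [← Finset.card_image_of_injective T hinj]
    obtain ⟨m, hm, hm1, hm2⟩ : ∃ m, m = (if 3 * e + 4 ≤ n then n - 1 - e else n - 2 - e) ∧ 2 ≤ m ∧
        (m + 1 ≤ n - 1 - e ∨ m ≤ n - 1 - e ∧ 2 * n + 1 ≤ 3 * (n - 1 - e)) := by
      refine ⟨_, rfl, ?_, ?_⟩
      · split_ifs <;> omega
      · split_ifs <;> omega
    have hdm : n - m = if 3 * e + 4 ≤ n then e + 1 else e + 2 := by
      rw [hm]
      split_ifs <;> omega
    have hH0 : 2 ≤ B * S ^ n := hB.trans (Nat.le_mul_of_pos_right _ hSn1)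
    refine nru h1 Pool.Agent.H88.TZ.dgs n (n - 1 - e) m (B * S ^ n) (by omega) (by omega) hm1 hm2
      hH0 F hdeg hbase hirr (fun t b => by rw [hdm]; exact hflex t b) (T.image g) ?_
    intro q hq
    obtain ⟨⟨L, P⟩, hP, rfl⟩ := Finset.mem_image.1 hq
    obtain ⟨a1, a3, h, hh, a2, a4⟩ := hT _ hP
    have hP2 : ![P 0, P 1] = P := by
      funext i
      fin_cases i <;> rfl
    rw [hg]
    refine ⟨?_, ?_, B * S ^ n * h, Nat.le_mul_of_pos_right _ hh, hht L h hh a1 a2, ?_⟩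
    · show (F + L - F).totalDegree ≤ n - (n - 1 - e) - 1
      rw [add_sub_cancel_left]
      exact a1.trans (by omega)
    · show eval ![P 0, P 1] (F + L) = 0
      rw [hP2]
      exact a3
    · show (((B * S ^ n * h : ℕ) : ℤ)) ^ (6000000 * n ^ 5) < max |P 0| |P 1|
      push_cast
      exact a4
  obtain ⟨U, hU⟩ : ∃ U : Set (MvPolynomial (Fin 2) ℤ × (Fin 2 → ℤ)), U = {q | q.1.totalDegree ≤ e ∧
      eval q.2 (F + q.1) = 0 ∧ ∃ h : ℕ, 1 ≤ h ∧ (∀ m, |q.1.coeff m| ≤ (h : ℤ)) ∧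
      ((B : ℤ) * S ^ n * h) ^ (6000000 * n ^ 5) < max |q.2 0| |q.2 1|} := ⟨_, rfl⟩
  rw [← hU]
  by_cases hfin : U.Finite
  · rw [hfin.encard_eq_coe_toFinset_card]
    have h1 := hfs hfin.toFinset (fun q hq => by
      have h2 := (Set.Finite.mem_toFinset hfin).1 hq
      rw [hU] at h2
      exact h2)
    exact_mod_cast h1
  · exfalso
    obtain ⟨T, hTs, hTc⟩ := Set.Infinite.exists_subset_card_eq hfin (312 * n ^ 3 + 1)
    have h1 := hfs T (fun q hq => by
      have h2 := hTs hq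
      rw [hU] at h2
      exact h2)
    omega

/-- all curves `F + c = 0`, `c` any integer: at most `312 n^3` have an integer point outside their box, if no real line lies on one of
them -/
theorem farU0 (h1 : WnuS) (n : ℕ) (hn : 4 ≤ n) (B S : ℕ) (hB : 2 ≤ B) (hS : 1 ≤ S)
    (F : MvPolynomial (Fin 2) ℤ) (hF : F.totalDegree ≤ n)
    (hirr : Irreducible (map (Int.castRingHom ℚ) (homogeneousComponent n F)))
    (hline : ∀ t b c : ℝ,
      (aeval ![Polynomial.X, Polynomial.C t * Polynomial.X + Polynomial.C b] F : Polynomial ℝ) ≠ Polynomial.C c)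
    (hFB : ∀ m : Fin 2 →₀ ℕ, m.degree = n → |F.coeff m| ≤ (B : ℤ))
    (hFb : ∀ m : Fin 2 →₀ ℕ, m.degree < n → |F.coeff m| ≤ (S : ℤ) ^ (n - m.degree)) :
    {c : ℤ | ∃ P : Fin 2 → ℤ, eval P (F + C c) = 0 ∧
      ((B : ℤ) * S ^ n * max 1 |c|) ^ (6000000 * n ^ 5) < max |P 0| |P 1|}.encard ≤ (312 * n ^ 3 : ℕ) := by
  classical
  have h2 := farU h1 n 0 (by omega) B S hB hS F hF hirr (fun t b => by
    rw [if_pos (by omega)]
    by_contra hcon
    have h2 : (aeval ![Polynomial.X, Polynomial.C t * Polynomial.X + Polynomial.C b] F : Polynomial ℝ).natDegree = 0 := by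
      omega
    exact hline t b _ (Polynomial.eq_C_of_natDegree_eq_zero h2)) hFB hFb
  refine le_trans (Set.encard_le_encard ?_) ((Set.encard_image_le (fun q : MvPolynomial (Fin 2) ℤ × (Fin 2 → ℤ) =>
    q.1.coeff 0) _).trans h2)
  rintro c ⟨P, hP, hX⟩
  have hc : (((max 1 c.natAbs : ℕ) : ℕ) : ℤ) = max 1 |c| := by
    push_cast
    rfl
  refine ⟨(C c, P), ⟨?_, hP, max 1 c.natAbs, le_max_left _ _, ?_, ?_⟩, ?_⟩
  · show (C c : MvPolynomial (Fin 2) ℤ).totalDegree ≤ 0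
    rw [totalDegree_C]
  · intro m
    show |coeff m (C c)| ≤ (((max 1 c.natAbs : ℕ) : ℕ) : ℤ)
    rw [hc, coeff_C]
    split_ifs
    · exact le_max_right _ _
    · rw [abs_zero]
      exact le_trans zero_le_one (le_max_left _ _)
  · show ((B : ℤ) * S ^ n * (((max 1 c.natAbs : ℕ) : ℕ) : ℤ)) ^ (6000000 * n ^ 5) < max |P 0| |P 1|
    rw [hc]
    exact hX
  · show coeff 0 (C c) = c
    rw [coeff_C, if_pos rfl]

end Pool.Agent.H99.TA
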