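import Pool.Agent.H99.TA.Lnu

/-! # [H99 TA LRU] All exceptional points of ALL curves `F + L = 0`, `deg L ≤ n - 4`, lie on at most `78 n^3` lines

No condition on the contact of `F` with lines (so also for forms). Normalisation as in `Nru.lean`, `Far.lean`. -/

namespace Pool.Agent.H99.TA

open Finset Pool.Agent.H72.ES Pool.Agent.H88.TF Pool.Agent.H88.TZ

private theorem top4_of_tops {n s : ℕ} (hs : 3 ≤ s) {F G : ℕ → ℕ → ℤ} (h : Tops n s F G) :
    Top4 n F G := fun i j hij _ => h i j hij (by omega)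

private theorem tops_nrm {n s : ℕ} {F G : ℕ → ℕ → ℤ} (h : Tops n s F G) :
    Tops n s (nrm n F) (nrm n G) := by
  intro i j hij h2
  have h0 : F 0 n = G 0 n := h 0 n (by omega) (by omega)
  by_cases hj : j = n
  · simp [nrm, hj]
  · simp only [nrm, hj, if_false]
    rw [h0, h i j hij h2]

private theorem threshold_le6 {n H : ℕ} (hn : 4 ≤ n) (hH : 2 ≤ H) :
    (((2 * H ^ n : ℕ) : ℝ)) ^ 2 * bb n (2 * H ^ n) ^ (600000 * n ^ 2) ≤
      (H : ℝ) ^ (6000000 * n ^ 5) := by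
  have hHR : (1 : ℝ) ≤ H := by exact_mod_cast (by omega : 1 ≤ H)
  have hQH : ((2 * H ^ n : ℕ) : ℝ) ≤ (H : ℝ) ^ (n + 1) := by
    push_cast
    have : (2 : ℝ) ≤ H := by exact_mod_cast hH
    calc 2 * (H : ℝ) ^ n ≤ H * (H : ℝ) ^ n := by gcongr
      _ = (H : ℝ) ^ (n + 1) := by ring
  unfold bb
  set Q : ℝ := ((2 * H ^ n : ℕ) : ℝ) with hQ
  have hQ0 : (0 : ℝ) ≤ Q := Nat.cast_nonneg _
  calc Q ^ 2 * (Q ^ (7 * n ^ 2)) ^ (600000 * n ^ 2) = Q ^ (2 + 4200000 * n ^ 4) := by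
        rw [← pow_mul, ← pow_add]
        congr 1
        ring
    _ ≤ ((H : ℝ) ^ (n + 1)) ^ (2 + 4200000 * n ^ 4) := pow_le_pow_left₀ hQ0 hQH _
    _ = (H : ℝ) ^ ((n + 1) * (2 + 4200000 * n ^ 4)) := by rw [← pow_mul]
    _ ≤ (H : ℝ) ^ (6000000 * n ^ 5) := by
        refine pow_le_pow_right₀ hHR ?_
        have h3 : 4 * (n + 1) ≤ 5 * n := by omega
        have h4 : 2 + 4200000 * n ^ 4 ≤ 4200001 * n ^ 4 := by
          have : 2 ≤ n ^ 4 := by
            calc 2 ≤ 4 ^ 4 := by norm_num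
              _ ≤ n ^ 4 := Nat.pow_le_pow_left hn 4
          omega
        have h5 : 4 * ((n + 1) * (2 + 4200000 * n ^ 4)) ≤ 4 * (6000000 * n ^ 5) := by
          calc 4 * ((n + 1) * (2 + 4200000 * n ^ 4)) = (4 * (n + 1)) * (2 + 4200000 * n ^ 4) := by ring
            _ ≤ (5 * n) * (4200001 * n ^ 4) := Nat.mul_le_mul h3 h4
            _ = 21000005 * n ^ 5 := by ring
            _ ≤ 24000000 * n ^ 5 := Nat.mul_le_mul_right _ (by norm_num)
            _ = 4 * (6000000 * n ^ 5) := by ring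
        omega

private theorem tops_arrM {n s : ℕ} (hs : s + 1 ≤ n) {F G : MvPolynomial (Fin 2) ℤ}
    (h : (F - G).totalDegree ≤ n - s - 1) : Tops n s (arrM F) (arrM G) := by
  intro i j _ h2
  have h1 := arrM_supp h i j (by omega)
  have h2 : arrM (F - G) i j = arrM F i j - arrM G i j := by
    simp [arrM]
  rw [h2] at h1
  linarith


open MvPolynomial in
/-- lines and finiteness for the pairs (curve, far point) of the whole fibre -/
theorem lru2 (n : ℕ) (hn : 4 ≤ n) (B S : ℕ) (hB : 2 ≤ B) (hS : 1 ≤ S)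
    (F : MvPolynomial (Fin 2) ℤ) (hF : F.totalDegree ≤ n)
    (hirr : Irreducible (map (Int.castRingHom ℚ) (homogeneousComponent n F)))
    (hFB : ∀ m : Fin 2 →₀ ℕ, m.degree = n → |F.coeff m| ≤ (B : ℤ))
    (hFb : ∀ m : Fin 2 →₀ ℕ, m.degree < n → |F.coeff m| ≤ (S : ℤ) ^ (n - m.degree))
    (E : Set (MvPolynomial (Fin 2) ℤ × (Fin 2 → ℤ)))
    (hE : ∀ q ∈ E, q.1.totalDegree ≤ n - 4 ∧ eval q.2 (F + q.1) = 0 ∧ ∃ h : ℕ, 1 ≤ h ∧
      (∀ m, |q.1.coeff m| ≤ (h : ℤ)) ∧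
      ((B : ℤ) * S ^ n * h) ^ (6000000 * n ^ 5) < max |q.2 0| |q.2 1|) :
    E.Finite ∧ ∃ T : Finset (ℤ × ℤ × ℤ), T.card ≤ 78 * n ^ 3 ∧ (∀ l ∈ T, l.1 ≠ 0 ∨ l.2.1 ≠ 0) ∧
      ∀ q ∈ E, ∃ l ∈ T, l.1 * q.2 0 + l.2.1 * q.2 1 = l.2.2 := by
  classical
  obtain ⟨e, he⟩ : ∃ e, e = n - 4 := ⟨_, rfl⟩
  have hSn1 : 1 ≤ S ^ n := Nat.one_le_pow _ _ hS
  have hdeg : F.totalDegree = n := by
    refine le_antisymm hF ?_
    by_contra hcon
    push Not at hcon
    have h1 : homogeneousComponent n F = 0 := homogeneousComponent_eq_zero n F hcon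
    rw [h1, map_zero] at hirr
    exact hirr.ne_zero rfl
  -- the heights
  have hht : ∀ (L : MvPolynomial (Fin 2) ℤ) (h : ℕ), 1 ≤ h → L.totalDegree ≤ e → (∀ m, |L.coeff m| ≤ (h : ℤ)) →
      ∀ m, |(F + L).coeff m| ≤ ((B * S ^ n * h : ℕ) : ℤ) := by
    intro L h hh hLd hL m
    have hBh : B ≤ B * S ^ n * h :=
      (Nat.le_mul_of_pos_right _ hSn1).trans (Nat.le_mul_of_pos_right _ hh)
    have hsum : S ^ n + h ≤ B * S ^ n * h := by
      have h1 : S ^ n + h ≤ 2 * (S ^ n * h) := by nlinarith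
      have h2 : 2 * (S ^ n * h) ≤ B * (S ^ n * h) := Nat.mul_le_mul_right _ hB
      rw [mul_assoc]
      exact h1.trans h2
    have hsz : (S : ℤ) ^ n + h ≤ ((B * S ^ n * h : ℕ) : ℤ) := by exact_mod_cast hsum
    have hSd : ∀ d, (S : ℤ) ^ (n - d) ≤ (S : ℤ) ^ n := by
      intro d
      exact_mod_cast Nat.pow_le_pow_right hS (by omega)
    rw [coeff_add]
    rcases Nat.lt_or_ge m.degree n with h1 | h1
    · have h2 := (hFb m h1).trans (hSd _)
      calc |F.coeff m + L.coeff m| ≤ |F.coeff m| + |L.coeff m| := abs_add_le _ _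
        _ ≤ (S : ℤ) ^ n + h := add_le_add h2 (hL m)
        _ ≤ ((B * S ^ n * h : ℕ) : ℤ) := hsz
    · have h2 : L.coeff m = 0 := by
        by_contra h3
        have h4 := le_totalDegree (MvPolynomial.mem_support_iff.2 h3)
        have h5 : (m.sum fun _ e => e) = m.degree := rfl
        omega
      rw [h2, add_zero]
      rcases h1.lt_or_eq with h6 | h6
      · have h7 : F.coeff m = 0 := by
          by_contra h3
          have h4 := le_totalDegree (MvPolynomial.mem_support_iff.2 h3)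
          have h5 : (m.sum fun _ e => e) = m.degree := rfl
          omega
        rw [h7, abs_zero]
        positivity
      · refine (hFB m h6.symm).trans ?_
        exact_mod_cast hBh
  have hbase : ∀ m, |F.coeff m| ≤ ((B * S ^ n : ℕ) : ℤ) := by
    intro m
    rcases Nat.lt_trichotomy m.degree n with h1 | h1 | h1
    · refine (hFb m h1).trans ?_
      have h2 : S ^ (n - m.degree) ≤ B * S ^ n :=
        (Nat.pow_le_pow_right hS (by omega)).trans (Nat.le_mul_of_pos_left _ (by omega))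
      exact_mod_cast h2
    · refine (hFB m h1).trans ?_
      have h2 : B ≤ B * S ^ n := Nat.le_mul_of_pos_right _ hSn1
      exact_mod_cast h2
    · have h7 : F.coeff m = 0 := by
        by_contra h3
        have h4 := le_totalDegree (MvPolynomial.mem_support_iff.2 h3)
        have h5 : (m.sum fun _ e => e) = m.degree := rfl
        omega
      rw [h7, abs_zero]
      positivity

  obtain ⟨G, hG⟩ : ∃ G, G = arrM F := ⟨_, rfl⟩
  obtain ⟨ha, hirr'⟩ := leadQ_of_irreducible (by omega : 2 ≤ n) hirr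
  rw [← hG] at ha hirr'
  have hH0 : 2 ≤ B * S ^ n := hB.trans (Nat.le_mul_of_pos_right _ hSn1)
  have hfirr := lead_nrm_irreducible (by omega : 1 ≤ n) G ha hirr'
  have hN : Norml n (2 * (B * S ^ n) ^ n) (lead n (nrm n G)) (nrm n G) :=
    norml_nrm hn hH0 (fun i j _ _ => rfl) (fun i j _ => by rw [hG]; exact hbase _)
  obtain ⟨⟨T, hT1, hT2, hT3⟩, hfin⟩ := lnu (s := 3) le_rfl hN hfirr
  have htd : ∀ q ∈ E, (F + q.1).totalDegree ≤ n := by
    intro q hq
    refine (totalDegree_add _ _).trans ?_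
    rw [hdeg]
    exact max_le le_rfl ((hE q hq).1.trans (by omega))
  have htop : ∀ q ∈ E, Tops n 3 (arrM (F + q.1)) G := by
    intro q hq
    rw [hG]
    refine tops_arrM (by omega) ?_
    rw [add_sub_cancel_left]
    exact (hE q hq).1.trans (by omega)
  have hzero : ∀ q ∈ E, ev n (arrM (F + q.1)) (q.2 0) (q.2 1) = 0 := by
    intro q hq
    rw [← eval_arrM (htd q hq)]
    have hP2 : ![q.2 0, q.2 1] = q.2 := by
      funext i
      fin_cases i <;> rfl
    rw [hP2]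
    exact (hE q hq).2.1
  have hEx : ∀ q ∈ E, Ex n 3 (2 * (B * S ^ n) ^ n) (lead n (nrm n G)) (nrm n G)
      (q.2 0, G 0 n * q.2 1) := by
    intro q hq
    obtain ⟨hL, hP, h, hh, hLc, hbig⟩ := hE q hq
    have hLd : q.1.totalDegree ≤ e := by rw [he]; exact hL
    have hcoef := hht q.1 h hh hLd hLc
    have h2H : 2 ≤ B * S ^ n * h := hH0.trans (Nat.le_mul_of_pos_right _ hh)
    refine ⟨2 * (B * S ^ n * h) ^ n, nrm n (arrM (F + q.1)),
      Nat.mul_le_mul_left _ (Nat.pow_le_pow_left (Nat.le_mul_of_pos_right _ hh) n),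
      norml_nrm hn h2H (top4_of_tops le_rfl (htop q hq)) (fun i j _ => hcoef _),
      tops_nrm (htop q hq), ?_, ?_⟩
    · have hF0 : arrM (F + q.1) 0 n = G 0 n := htop q hq 0 n (by omega) (by omega)
      have h3 := ev_nrm (by omega : 1 ≤ n) (arrM (F + q.1)) (q.2 0) (q.2 1)
      rw [hF0] at h3
      simp only
      rw [h3, hzero q hq, mul_zero]
    · have hmax : max |q.2 0| |q.2 1| ≤ max |q.2 0| |G 0 n * q.2 1| := by
        refine max_le_max le_rfl ?_
        rw [abs_mul]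
        have : 1 ≤ |G 0 n| := Int.one_le_abs ha
        nlinarith [abs_nonneg (q.2 1)]
      have hbig' : (((B * S ^ n * h : ℕ) : ℤ)) ^ (6000000 * n ^ 5) < max |q.2 0| |q.2 1| := by
        push_cast
        exact hbig
      have h3 : ((((B * S ^ n * h : ℕ) : ℤ) ^ (6000000 * n ^ 5) : ℤ) : ℝ) ≤
          ((max |q.2 0| |G 0 n * q.2 1| : ℤ) : ℝ) := by
        exact_mod_cast (hbig'.le.trans hmax)
      refine le_trans (threshold_le6 hn h2H) ?_
      rw [Int.cast_pow, Int.cast_natCast] at h3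
      exact h3
  refine ⟨?_, ?_⟩
  · refine Set.Finite.of_finite_image (f := fun q : MvPolynomial (Fin 2) ℤ × (Fin 2 → ℤ) =>
      ((q.2 0, G 0 n * q.2 1) : ℤ × ℤ)) (hfin.subset ?_) ?_
    · rintro _ ⟨q, hq, rfl⟩
      exact hEx q hq
    · intro q hq r hr hqr
      simp only [Prod.mk.injEq] at hqr
      have e0 : q.2 0 = r.2 0 := hqr.1
      have e1 : q.2 1 = r.2 1 := mul_left_cancel₀ ha hqr.2
      obtain ⟨hq1, -, h, hh, hLq, hbq⟩ := hE q hq
      obtain ⟨hr1, -, k, hk, hLr, hbr⟩ := hE r hr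
      have hcq := hht q.1 h hh (by rw [he]; exact hq1) hLq
      have hcr := hht r.1 k hk (by rw [he]; exact hr1) hLr
      obtain ⟨H, hH, hHq, hHr, hHP⟩ : ∃ H : ℕ, 2 ≤ H ∧ B * S ^ n * h ≤ H ∧ B * S ^ n * k ≤ H ∧
          (H : ℤ) ^ (6000000 * n ^ 5) < max |q.2 0| |q.2 1| := by
        have h2h : 2 ≤ B * S ^ n * h := hH0.trans (Nat.le_mul_of_pos_right _ hh)
        have h2k : 2 ≤ B * S ^ n * k := hH0.trans (Nat.le_mul_of_pos_right _ hk)
        rcases le_total (B * S ^ n * h) (B * S ^ n * k) with h1 | h1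
        · refine ⟨B * S ^ n * k, h2k, h1, le_rfl, ?_⟩
          rw [e0, e1]
          push_cast
          exact hbr
        · refine ⟨B * S ^ n * h, h2h, le_rfl, h1, ?_⟩
          push_cast
          exact hbq
      have hH1 : (1 : ℤ) ≤ (H : ℤ) := by exact_mod_cast (by omega : 1 ≤ H)
      have hHP2 : (H : ℤ) ^ (600 * n ^ 5) < max |q.2 0| |q.2 1| :=
        lt_of_le_of_lt (pow_le_pow_right₀ hH1 (Nat.mul_le_mul_right _ (by norm_num))) hHP
      have h3 : arrM (F + q.1) = arrM (F + r.1) := by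
        refine shared_point (by omega) hH G ha hirr' (arrM (F + q.1)) (arrM (F + r.1))
          (fun i j _ => (hcq _).trans (by exact_mod_cast hHq))
          (fun i j _ => (hcr _).trans (by exact_mod_cast hHr))
          (top4_of_tops le_rfl (htop q hq)) (top4_of_tops le_rfl (htop r hr))
          (arrM_supp (htd q hq)) (arrM_supp (htd r hr)) (q.2 0, q.2 1) hHP2 (hzero q hq) ?_
        simp only
        rw [e0, e1]
        exact hzero r hr
      refine Prod.ext (add_left_cancel (arrM_inj h3)) ?_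
      funext i
      fin_cases i
      · exact e0
      · exact e1
  · have hai : Function.Injective (fun l : ℤ × ℤ × ℤ => (l.1, G 0 n * l.2.1, l.2.2)) := by
      rintro ⟨x, y, z⟩ ⟨x', y', z'⟩ h
      simp only [Prod.mk.injEq] at h
      obtain ⟨h1, h2, h3⟩ := h
      rw [h1, mul_left_cancel₀ ha h2, h3]
    refine ⟨T.image (fun l : ℤ × ℤ × ℤ => (l.1, G 0 n * l.2.1, l.2.2)), card_image_le.trans hT1, ?_, ?_⟩
    · intro l hl
      obtain ⟨l', hl', rfl⟩ := mem_image.1 hl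
      rcases hT2 l' hl' with h1 | h1
      · exact Or.inl h1
      · exact Or.inr (mul_ne_zero ha h1)
    · intro q hq
      obtain ⟨l, hl, h5⟩ := hT3 _ (hEx q hq)
      refine ⟨_, mem_image_of_mem _ hl, ?_⟩
      simp only at h5 ⊢
      linarith

open MvPolynomial in
theorem lru (n : ℕ) (hn : 4 ≤ n) (B S : ℕ) (hB : 2 ≤ B) (hS : 1 ≤ S)
    (F : MvPolynomial (Fin 2) ℤ) (hF : F.totalDegree ≤ n)
    (hirr : Irreducible (map (Int.castRingHom ℚ) (homogeneousComponent n F)))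
    (hFB : ∀ m : Fin 2 →₀ ℕ, m.degree = n → |F.coeff m| ≤ (B : ℤ))
    (hFb : ∀ m : Fin 2 →₀ ℕ, m.degree < n → |F.coeff m| ≤ (S : ℤ) ^ (n - m.degree)) :
    ∃ T : Finset (ℤ × ℤ × ℤ), T.card ≤ 78 * n ^ 3 ∧ (∀ l ∈ T, l.1 ≠ 0 ∨ l.2.1 ≠ 0) ∧
      ∀ (L : MvPolynomial (Fin 2) ℤ) (P : Fin 2 → ℤ) (h : ℕ), L.totalDegree ≤ n - 4 → 1 ≤ h →
        (∀ m, |L.coeff m| ≤ (h : ℤ)) → eval P (F + L) = 0 →
        ((B : ℤ) * S ^ n * h) ^ (6000000 * n ^ 5) < max |P 0| |P 1| →
        ∃ l ∈ T, l.1 * P 0 + l.2.1 * P 1 = l.2.2 := by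
  obtain ⟨-, T, h1, h2, h3⟩ := lru2 n hn B S hB hS F hF hirr hFB hFb
    {q | q.1.totalDegree ≤ n - 4 ∧ eval q.2 (F + q.1) = 0 ∧ ∃ h : ℕ, 1 ≤ h ∧
      (∀ m, |q.1.coeff m| ≤ (h : ℤ)) ∧
      ((B : ℤ) * S ^ n * h) ^ (6000000 * n ^ 5) < max |q.2 0| |q.2 1|} (fun q hq => hq)
  exact ⟨T, h1, h2, fun L P h hL hh hLc hP hbig => h3 (L, P) ⟨hL, hP, h, hh, hLc, hbig⟩⟩

end Pool.Agent.H99.TA
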