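import Pool.Agent.H99.TA.Def

/-! # [H99 TA WNU] Counting the far points of a fibre, all heights at once (up to `one_windowF` as `H88/TZ/Wns.lean`)

`PtsU`: every point has its own height `Q`; the class of a point is its nearest real root. In one window the largest of these heights
is small compared with the window (`one_windowU`), and all points lie in `[X, X ^ (2000 n))`, `X` the least one, by the two-point
theorem with two heights (`two_point2`). -/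

namespace Pool.Agent.H99.TA

open Finset Polynomial Pool.Agent.H72.ES Pool.Agent.H88.TF Pool.Agent.H88.TZ Pool.Agent.H8.UL

variable {n s Q : ℕ} {f : ℤ[X]} {θ : ℝ}

private theorem top4_of_tops (h3 : 3 ≤ s) {F G : ℕ → ℕ → ℤ} (h : Tops n s F G) : Top4 n F G :=
  fun i j h1 h2 => h i j h1 (by omega)

private theorem col3 {P P' a b c : ℤ × ℤ} (h : P ≠ P') (ha : Col P P' a) (hb : Col P P' b) (hc : Col P P' c) :
    Col a b c := by
  unfold Col at *
  have e1 : (P'.1 - P.1) * (b.2 - a.2) = (b.1 - a.1) * (P'.2 - P.2) := by linear_combination hb - ha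
  have e2 : (P'.1 - P.1) * (c.2 - a.2) = (c.1 - a.1) * (P'.2 - P.2) := by linear_combination hc - ha
  by_cases hu : P'.1 - P.1 = 0
  · have hv : P'.2 - P.2 ≠ 0 := by
      intro hv
      exact h (Prod.ext (by omega) (by omega))
    rw [hu, zero_mul] at e1 e2
    have h1 : b.1 - a.1 = 0 := by
      rcases mul_eq_zero.1 e1.symm with h1 | h1
      · exact h1
      · exact absurd h1 hv
    have h2 : c.1 - a.1 = 0 := by
      rcases mul_eq_zero.1 e2.symm with h2 | h2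
      · exact h2
      · exact absurd h2 hv
    rw [h1, h2, zero_mul, zero_mul]
  · refine mul_left_cancel₀ hu ?_
    linear_combination (b.1 - a.1) * e2 - (c.1 - a.1) * e1

private theorem two_pow_le_window4 (hn : 1 ≤ n) (k : ℕ) :
    (2 : ℝ) ^ k ≤ (1 + 1 / (4 * (n : ℝ))) ^ (4 * n * k) := by
  have hn0 : (0 : ℝ) < n := by exact_mod_cast hn
  have h1 : (2 : ℝ) ≤ (1 + 1 / (4 * (n : ℝ))) ^ (4 * n) := by
    have := one_add_mul_le_pow (a := 1 / (4 * (n : ℝ))) (by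
      have : (0 : ℝ) ≤ 1 / (4 * (n : ℝ)) := by positivity
      linarith) (4 * n)
    refine le_trans ?_ this
    push_cast
    have : (4 * (n : ℝ)) * (1 / (4 * (n : ℝ))) = 1 := by field_simp
    rw [this]
    norm_num
  rw [pow_mul]
  exact pow_le_pow_left₀ (by norm_num) h1 k

/-- the points near `θ` on the curves of a fibre over the terms of degree `≥ 2` -/
private structure PtsF (n s Q : ℕ) (f : ℤ[X]) (G : ℕ → ℕ → ℤ) (θ : ℝ) (S : Finset (ℤ × ℤ)) : Prop where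
  mem : ∀ P ∈ S, ∃ F, Norml n Q f F ∧ Tops n s F G ∧ ev n F P.1 P.2 = 0
  near : ∀ P ∈ S, |(P.2 : ℝ) / P.1 - θ| ≤ 1 / bb n Q

private theorem PtsF.mono {G : ℕ → ℕ → ℤ} {S T : Finset (ℤ × ℤ)} (h : PtsF n s Q f G θ S)
    (hT : T ⊆ S) : PtsF n s Q f G θ T where
  mem := fun P hP => h.mem P (hT hP)
  near := fun P hP => h.near P (hT hP)

private theorem side_card (h1 : ExsS) (h2 : NcsS) (hs3 : 3 ≤ s) (hsn : s + 1 ≤ n) (hf : Irreducible f) {G : ℕ → ℕ → ℤ} (hN : Norml n Q f G) (O : Ord ℝ n Q f θ)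
    (br : Branch O G) (r : ℕ) (hr : Rcs s br r) (S : Finset (ℤ × ℤ))
    (hS : PtsF n s Q f G θ S) (X : ℝ) (hX : bb n Q ^ (60 * n ^ 2) ≤ X)
    (hs : (∀ P ∈ S, X ≤ (P.1 : ℝ)) ∨ ∀ P ∈ S, X ≤ -(P.1 : ℝ))
    (hx2 : ∀ P ∈ S, |(P.1 : ℝ)| ≤ X ^ (1 + 1 / (4 * (n : ℝ))))
    (P P' : ℤ × ℤ) (hPP : P ≠ P') (hc : ∀ R ∈ S, Col P P' R) : S.card ≤ 2 := by
  by_contra hcard
  push Not at hcard
  obtain ⟨a, ha, b, hb, c, hc', hab, hac, hbc⟩ := two_lt_card.1 hcard
  have hb1 := one_le_bb hN.hn hN.hQ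
  have hmem : ∀ i : Fin 3, (![a, b, c] : Fin 3 → ℤ × ℤ) i ∈ S := by
    intro i
    fin_cases i
    · exact ha
    · exact hb
    · exact hc'
  have hinj : Function.Injective (![a, b, c] : Fin 3 → ℤ × ℤ) := by
    intro i j hij
    fin_cases i <;> fin_cases j <;> simp_all
  have hXabs : ∀ R ∈ S, X ≤ |(R.1 : ℝ)| := by
    intro R hR
    rcases hs with hs | hs
    · exact (hs R hR).trans (le_abs_self _)
    · exact (hs R hR).trans (neg_le_abs _)
  refine h2 n s Q f θ O G hs3 hsn hN hf br r hr X hX ![a, b, c] hinj ?_ (fun i => hx2 _ (hmem i)) ?_ ?_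
  · rcases hs with hs | hs
    · exact Or.inl fun i => hs _ (hmem i)
    · exact Or.inr fun i => hs _ (hmem i)
  · intro i
    obtain ⟨F, hF, hFG, h0⟩ := hS.mem _ (hmem i)
    refine h1 n s Q f θ O F G hs3 hsn hF hN hFG br _ _ ?_ (hS.near _ (hmem i)) h0
    refine le_trans ?_ (hX.trans (hXabs _ (hmem i)))
    exact pow_le_pow_right₀ hb1 (by nlinarith)
  · exact col3 hPP (hc _ ha) (hc _ hb) (hc _ hc')

private theorem one_windowF (h1 : ExsS) (h2 : NcsS) (hs3 : 3 ≤ s) (hsn : s + 1 ≤ n) (hf : Irreducible f) {G : ℕ → ℕ → ℤ} (hN : Norml n Q f G) (O : Ord ℝ n Q f θ)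
    (br : Branch O G) (r : ℕ) (hr : Rcs s br r) (S : Finset (ℤ × ℤ))
    (hS : PtsF n s Q f G θ S) (X : ℝ) (hX : bb n Q ^ (60 * n ^ 2) ≤ X)
    (hx1 : ∀ P ∈ S, X ≤ |(P.1 : ℝ)|)
    (hx2 : ∀ P ∈ S, |(P.1 : ℝ)| ≤ X ^ (1 + 1 / (4 * (n : ℝ)))) : S.card ≤ 24 := by
  classical
  by_contra hc
  push Not at hc
  have hb1 := one_le_bb hN.hn hN.hQ
  have h4b : (4 : ℝ) ≤ bb n Q := le_trans (by norm_num) (thousand_le_bb hN.hn hN.hQ)
  have hX1 : (1 : ℝ) ≤ X := (one_le_pow₀ hb1).trans hX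
  obtain ⟨p, hpS, hpi, hpc⟩ := choose5 S 4 (by norm_num) (by
    intro P _ P' _ hPP S' hS' hcol
    have h3 : S' = S'.filter (fun R => 0 < R.1) ∪ S'.filter (fun R => ¬ 0 < R.1) :=
      (filter_union_filter_not_eq _ _).symm
    have hA : (S'.filter (fun R => 0 < R.1)).card ≤ 2 := by
      have hsub : S'.filter (fun R => 0 < R.1) ⊆ S := (filter_subset _ _).trans hS'
      refine side_card h1 h2 hs3 hsn hf hN O br r hr _ (hS.mono hsub) X hX (Or.inl ?_)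
        (fun R hR => hx2 R (hsub hR)) P P' hPP (fun R hR => hcol R (mem_filter.1 hR).1)
      intro R hR
      have h5 : (0 : ℝ) < (R.1 : ℝ) := by exact_mod_cast (mem_filter.1 hR).2
      have h6 := hx1 R (hsub hR)
      rwa [abs_of_pos h5] at h6
    have hB : (S'.filter (fun R => ¬ 0 < R.1)).card ≤ 2 := by
      have hsub : S'.filter (fun R => ¬ 0 < R.1) ⊆ S := (filter_subset _ _).trans hS'
      refine side_card h1 h2 hs3 hsn hf hN O br r hr _ (hS.mono hsub) X hX (Or.inr ?_)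
        (fun R hR => hx2 R (hsub hR)) P P' hPP (fun R hR => hcol R (mem_filter.1 hR).1)
      intro R hR
      have h5 : (R.1 : ℝ) ≤ 0 := by exact_mod_cast not_lt.1 (mem_filter.1 hR).2
      have h6 := hx1 R (hsub hR)
      rwa [abs_of_nonpos h5] at h6
    have h4 : S'.card ≤ 4 := by
      rw [h3]
      exact (card_union_le _ _).trans (by omega)
    exact_mod_cast h4) (by
      have h7 : (24 : ℝ) < S.card := by exact_mod_cast hc
      linarith)
  obtain ⟨hbe, hga, hde⟩ := expand_bounds hN br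
  have hbe' : |br.be| ≤ bb n Q ^ 10 := hbe.trans (pow_le_pow_right₀ hb1 (by norm_num))
  have hga' : |br.ga| ≤ bb n Q ^ 10 := hga.trans (pow_le_pow_right₀ hb1 (by norm_num))
  have hE : ∀ i, |((p i).2 : ℝ) - (θ * (p i).1 + br.be + br.ga / (p i).1 +
      br.de / ((p i).1 : ℝ) ^ 2)| ≤ bb n Q ^ 25 / |((p i).1 : ℝ)| ^ 3 := by
    intro i
    obtain ⟨F, hF, hFG, h0⟩ := hS.mem _ (hpS i)
    refine expand4g hF hN (top4_of_tops hs3 hFG) br (p i).1 (p i).2 ?_ (hS.near _ (hpS i)) h0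
    refine le_trans ?_ ((hX.trans (hx1 _ (hpS i))))
    exact pow_le_pow_right₀ hb1 (by nlinarith)
  have hXs : bb n Q ^ (200 * n) < X := by
    refine lt_of_lt_of_le ?_ hX
    exact pow_lt_pow_right₀ (by linarith) (by nlinarith)
  have hn0 : (0 : ℝ) < n := by
    have := hN.hn
    exact_mod_cast (by omega : 0 < n)
  have hmono : X ^ (1 + 1 / (4 * (n : ℝ))) ≤ X ^ (1 + 1 / (3 * (n : ℝ))) := by
    refine Real.rpow_le_rpow_of_exponent_le hX1 ?_
    have h9 : 1 / (4 * (n : ℝ)) ≤ 1 / (3 * (n : ℝ)) := one_div_le_one_div_of_le (by positivity) (by linarith)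
    linarith
  exact gap hN.hn hN.hQ O br.be br.ga br.de hbe' hga' hde X hXs p
    (fun i => hx1 _ (hpS i)) (fun i => (hx2 _ (hpS i)).trans hmono) hE hpc


private theorem norml_mono {Q' : ℕ} {F : ℕ → ℕ → ℤ} (h : Norml n Q f F) (hQ : Q ≤ Q') : Norml n Q' f F where
  hn := h.hn
  hQ := h.hQ.trans hQ
  lead_eq := h.lead_eq
  top := h.top
  bound := fun i j hij => (h.bound i j hij).trans (by exact_mod_cast hQ)

/-- the points near `θ` on the curves of a fibre, each with its own height -/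
private structure PtsU (n s Q0 : ℕ) (f : ℤ[X]) (G : ℕ → ℕ → ℤ) (θ : ℝ) (S : Finset (ℤ × ℤ)) : Prop where
  mem : ∀ P ∈ S, ∃ Q F, Q0 ≤ Q ∧ Norml n Q f F ∧ Tops n s F G ∧ ev n F P.1 P.2 = 0 ∧
    (Q : ℝ) ^ 2 * bb n Q ^ (600000 * n ^ 2) ≤ ((max |P.1| |P.2| : ℤ) : ℝ)
  near : ∀ P ∈ S, ∀ θ' : ℝ, aeval θ' f = 0 → |(P.2 : ℝ) / P.1 - θ| ≤ |(P.2 : ℝ) / P.1 - θ'|

private theorem PtsU.mono {Q0 : ℕ} {G : ℕ → ℕ → ℤ} {S T : Finset (ℤ × ℤ)} (h : PtsU n s Q0 f G θ S)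
    (hT : T ⊆ S) : PtsU n s Q0 f G θ T where
  mem := fun P hP => h.mem P (hT hP)
  near := fun P hP => h.near P (hT hP)

private theorem near_of {F : ℕ → ℕ → ℤ} (hf : Irreducible f) (hN : Norml n Q f F) (P : ℤ × ℤ)
    (h0 : ev n F P.1 P.2 = 0) (k : ℕ) (hk : n + 3 ≤ k)
    (hbig : (Q : ℝ) ^ 2 * bb n Q ^ k ≤ ((max |P.1| |P.2| : ℤ) : ℝ))
    (hnear : ∀ θ' : ℝ, aeval θ' f = 0 → |(P.2 : ℝ) / P.1 - θ| ≤ |(P.2 : ℝ) / P.1 - θ'|) :
    bb n Q ^ k ≤ |(P.1 : ℝ)| ∧ |(P.2 : ℝ) / P.1 - θ| ≤ 1 / bb n Q := by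
  have hb1 := one_le_bb hN.hn hN.hQ
  obtain ⟨h1, θ', h2, h3⟩ := far_pointB hN hf P.1 P.2 (by rw [h0]; simp) _ (pow_le_pow_right₀ hb1 hk) hbig
  exact ⟨h1, (hnear θ' h2).trans h3⟩

private theorem Qsq_le {F : ℕ → ℕ → ℤ} (hN : Norml n Q f F) (k : ℕ) :
    (Q : ℝ) ^ 2 * bb n Q ^ k ≤ bb n Q ^ (k + 1) := by
  have hb1 := one_le_bb hN.hn hN.hQ
  have h1 : (Q : ℝ) ^ 2 ≤ bb n Q := Qpow_le_bb hN.hn hN.hQ (by
    have := hN.hn
    nlinarith)
  rw [pow_succ, mul_comm]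
  exact mul_le_mul_of_nonneg_left h1 (by positivity)

private theorem abs_le_max (P : ℤ × ℤ) : |(P.1 : ℝ)| ≤ ((max |P.1| |P.2| : ℤ) : ℝ) := by
  have h1 : |P.1| ≤ max |P.1| |P.2| := le_max_left _ _
  have h2 : ((|P.1| : ℤ) : ℝ) ≤ ((max |P.1| |P.2| : ℤ) : ℝ) := by exact_mod_cast h1
  rwa [Int.cast_abs] at h2

private theorem one_windowU (g1 : ExsS) (g2 : NcsS) (hs3 : 3 ≤ s) (hsn : s + 1 ≤ n) (hf : Irreducible f) (hθ : aeval θ f = 0)
    {Q0 : ℕ} {G : ℕ → ℕ → ℤ} (hN : Norml n Q0 f G) (hc0 : ∀ Q, Norml n Q f G → Ncs n s Q f G)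
    (S : Finset (ℤ × ℤ)) (hS : PtsU n s Q0 f G θ S) (X : ℝ) (hX1 : 1 ≤ X)
    (hx1 : ∀ P ∈ S, X ≤ |(P.1 : ℝ)|)
    (hx2 : ∀ P ∈ S, |(P.1 : ℝ)| ≤ X ^ (1 + 1 / (4 * (n : ℝ)))) : S.card ≤ 24 := by
  classical
  by_cases hne : S.Nonempty
  · have hn := hN.hn
    choose! Qf Ff hQ0 hNf hTf h0f hbf using hS.mem
    obtain ⟨R, hR, hmax⟩ := S.exists_max_image Qf hne
    obtain ⟨Q1, hQ1⟩ : ∃ Q1, Q1 = Qf R := ⟨_, rfl⟩
    have hNR : Norml n Q1 f (Ff R) := by rw [hQ1]; exact hNf R hR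
    have hNG : Norml n Q1 f G := norml_mono hN (by rw [hQ1]; exact hQ0 R hR)
    have hb1 := one_le_bb hNG.hn hNG.hQ
    have hnn : 1 ≤ n ^ 2 := Nat.one_le_pow _ _ (by omega)
    have hn0 : (0 : ℝ) < n := by exact_mod_cast (by omega : 0 < n)
    have hRX : bb n Q1 ^ (600000 * n ^ 2) ≤ |(R.1 : ℝ)| := by
      refine (near_of hf hNR R (h0f R hR) (600000 * n ^ 2) (by nlinarith) ?_ (hS.near R hR)).1
      rw [hQ1]
      exact hbf R hR
    have hXb : bb n Q1 ^ (300000 * n ^ 2) ≤ X := by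
      have e1 : X ^ (1 + 1 / (4 * (n : ℝ))) ≤ X ^ (2 : ℝ) := by
        refine Real.rpow_le_rpow_of_exponent_le hX1 ?_
        have h9 : 1 / (4 * (n : ℝ)) ≤ 1 := by
          rw [div_le_one (by positivity)]
          have : (4 : ℝ) ≤ n := by exact_mod_cast hn
          linarith
        linarith
      have e2 : (bb n Q1 ^ (300000 * n ^ 2)) ^ 2 ≤ X ^ 2 := by
        calc (bb n Q1 ^ (300000 * n ^ 2)) ^ 2 = bb n Q1 ^ (600000 * n ^ 2) := by
              rw [← pow_mul]; congr 1; ring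
          _ ≤ |(R.1 : ℝ)| := hRX
          _ ≤ X ^ (1 + 1 / (4 * (n : ℝ))) := hx2 R hR
          _ ≤ X ^ (2 : ℝ) := e1
          _ = X ^ 2 := by
              rw [← Real.rpow_natCast]
              norm_num
      exact le_of_sq_le_sq e2 (by linarith)
    have hNn : ∀ P ∈ S, Norml n Q1 f (Ff P) := fun P hP =>
      norml_mono (hNf P hP) (by rw [hQ1]; exact hmax P hP)
    obtain ⟨hm, hd, hc⟩ := hNG.lead_props
    obtain ⟨O⟩ := exists_ord ℝ hNG.hn hNG.hQ hm hd hc hf θ hθ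
    obtain ⟨br⟩ := exists_branch O hNG
    obtain ⟨r, hr⟩ := hc0 Q1 hNG θ hθ O br
    refine one_windowF g1 g2 hs3 hsn hf hNG O br r hr S ⟨?_, ?_⟩ X ?_ hx1 hx2
    · exact fun P hP => ⟨Ff P, hNn P hP, hTf P hP, h0f P hP⟩
    · intro P hP
      refine (near_of hf (hNn P hP) P (h0f P hP) (n + 3) le_rfl ?_ (hS.near P hP)).2
      refine (Qsq_le hNG (n + 3)).trans ?_
      refine le_trans (pow_le_pow_right₀ hb1 ?_) (hXb.trans ((hx1 P hP).trans (abs_le_max P)))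
      nlinarith
    · refine le_trans (pow_le_pow_right₀ hb1 ?_) hXb
      nlinarith
  · rw [not_nonempty_iff_eq_empty] at hne
    rw [hne]
    simp

private theorem windowsU (g1 : ExsS) (g2 : NcsS) (hs3 : 3 ≤ s) (hsn : s + 1 ≤ n) (hf : Irreducible f) (hθ : aeval θ f = 0)
    {Q0 : ℕ} {G : ℕ → ℕ → ℤ} (hN : Norml n Q0 f G) (hc0 : ∀ Q, Norml n Q f G → Ncs n s Q f G) (m : ℕ) :
    ∀ (S : Finset (ℤ × ℤ)), PtsU n s Q0 f G θ S → ∀ X : ℝ, 1 ≤ X → (∀ P ∈ S, X ≤ |(P.1 : ℝ)|) →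
    (∀ P ∈ S, |(P.1 : ℝ)| < X ^ ((1 + 1 / (4 * (n : ℝ))) ^ m)) → S.card ≤ 24 * m := by
  induction m with
  | zero =>
    intro S _ X _ h1 h2
    have : S = ∅ := by
      apply eq_empty_of_forall_notMem
      intro P hP
      have e1 := h1 P hP
      have e2 := h2 P hP
      simp only [pow_zero, Real.rpow_one] at e2
      linarith
    simp [this]
  | succ m ih =>
    intro S hS X hX1 h1 h2
    have hX0 : 0 < X := by linarith
    set δ : ℝ := 1 + 1 / (4 * (n : ℝ)) with hδ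
    have hn0 : (0 : ℝ) < n := by
      have := hN.hn
      exact_mod_cast (by omega : 0 < n)
    have hδ1 : 1 ≤ δ := by
      have : (0 : ℝ) ≤ 1 / (4 * (n : ℝ)) := by positivity
      linarith
    have hXδ : X ≤ X ^ δ := by
      calc X = X ^ (1 : ℝ) := (Real.rpow_one X).symm
        _ ≤ X ^ δ := Real.rpow_le_rpow_of_exponent_le hX1 hδ1
    set S1 := S.filter (fun P => |(P.1 : ℝ)| < X ^ δ) with hS1
    set S2 := S.filter (fun P => ¬ |(P.1 : ℝ)| < X ^ δ) with hS2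
    have hs1 : S1 ⊆ S := filter_subset _ _
    have hs2 : S2 ⊆ S := filter_subset _ _
    have e1 : S1.card ≤ 24 := by
      refine one_windowU g1 g2 hs3 hsn hf hθ hN hc0 S1 (hS.mono hs1) X hX1
        (fun P hP => h1 P (hs1 hP)) ?_
      intro P hP
      exact ((mem_filter.1 hP).2).le
    have e2 : S2.card ≤ 24 * m := by
      refine ih S2 (hS.mono hs2) (X ^ δ) (hX1.trans hXδ) ?_ ?_
      · intro P hP
        exact not_lt.1 (mem_filter.1 hP).2
      · intro P hP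
        have := h2 P (hs2 hP)
        rw [← Real.rpow_mul hX0.le]
        have e3 : δ * δ ^ m = δ ^ (m + 1) := by ring
        rw [e3]
        exact this
    have e3 : S1.card + S2.card = S.card := by
      rw [hS1, hS2]
      exact card_filter_add_card_filter_not _
    omega

private theorem class_countU (g1 : ExsS) (g2 : NcsS) (hs3 : 3 ≤ s) (hsn : s + 1 ≤ n) (hf : Irreducible f) (hθ : aeval θ f = 0)
    {Q0 : ℕ} {G : ℕ → ℕ → ℤ} (hN : Norml n Q0 f G) (hc0 : ∀ Q, Norml n Q f G → Ncs n s Q f G)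
    (S : Finset (ℤ × ℤ)) (hS : PtsU n s Q0 f G θ S) : S.card ≤ 312 * n ^ 2 := by
  classical
  have hn := hN.hn
  have hnn : 1 ≤ n ^ 2 := Nat.one_le_pow _ _ (by omega)
  by_cases hne : S.Nonempty
  · obtain ⟨P1, hP1, hmin⟩ := S.exists_min_image (fun P => |(P.1 : ℝ)|) hne
    have h4n := four_n_le hn
    have hA2 : ((2000 * n : ℕ) : ℝ) ≤ (1 + 1 / (4 * (n : ℝ))) ^ (4 * n * (n + 9)) := by
      refine le_trans ?_ (two_pow_le_window4 (by omega) (n + 9))
      have : 2000 * n ≤ 2 ^ (n + 9) := by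
        rw [pow_add]
        omega
      exact_mod_cast this
    obtain ⟨Q1, F1, _, hF1, _, h01, hb01⟩ := hS.mem P1 hP1
    have hbQ1 := one_le_bb hF1.hn hF1.hQ
    obtain ⟨hX, hy1⟩ := near_of hf hF1 P1 h01 (600000 * n ^ 2) (by nlinarith) hb01 (hS.near P1 hP1)
    have hX1 : 1 ≤ |(P1.1 : ℝ)| := (one_le_pow₀ hbQ1).trans hX
    have e2 : S.card ≤ 24 * (4 * n * (n + 9)) := by
      refine windowsU g1 g2 hs3 hsn hf hθ hN hc0 _ S hS |(P1.1 : ℝ)| hX1 hmin ?_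
      intro P hP
      have hlt : |(P.1 : ℝ)| < |(P1.1 : ℝ)| ^ (2000 * n) := by
        by_contra hcon
        push Not at hcon
        obtain ⟨Q2, F2, _, hF2, _, h02, hb02⟩ := hS.mem P hP
        have hP12 : |(P1.1 : ℝ)| ^ 2 ≤ |(P.1 : ℝ)| :=
          le_trans (pow_le_pow_right₀ hX1 (by omega)) hcon
        have hbig : ((max Q1 Q2 : ℕ) : ℝ) ^ 2 * bb n (max Q1 Q2) ^ (600000 * n ^ 2) ≤
            ((max |P.1| |P.2| : ℤ) : ℝ) := by
          rcases le_total Q1 Q2 with hle | hle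
          · rw [max_eq_right hle]
            exact hb02
          · rw [max_eq_left hle]
            refine (Qsq_le hF1 _).trans ?_
            refine le_trans ?_ (hP12.trans (abs_le_max P))
            calc bb n Q1 ^ (600000 * n ^ 2 + 1) ≤ bb n Q1 ^ (600000 * n ^ 2 * 2) :=
                  pow_le_pow_right₀ hbQ1 (by omega)
              _ = (bb n Q1 ^ (600000 * n ^ 2)) ^ 2 := by rw [pow_mul]
              _ ≤ |(P1.1 : ℝ)| ^ 2 := pow_le_pow_left₀ (by positivity) hX 2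
        have hF2' : Norml n (max Q1 Q2) f F2 := norml_mono hF2 (le_max_right _ _)
        obtain ⟨hx2b, hy2⟩ := near_of hf hF2' P h02 (600000 * n ^ 2) (by nlinarith) hbig (hS.near P hP)
        obtain ⟨hm, hd, hc⟩ := hF1.lead_props
        obtain ⟨O⟩ := exists_ord ℝ hF1.hn hF1.hQ hm hd hc hf θ hθ
        exact two_point2 hf O (le_max_left Q1 Q2) hF1 hF2' P1.1 P1.2 P.1 P.2 h01 h02 hy1 hy2
          ((pow_le_pow_right₀ hbQ1 (by nlinarith)).trans hX) hx2b hcon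
      refine lt_of_lt_of_le hlt ?_
      rw [← Real.rpow_natCast]
      exact Real.rpow_le_rpow_of_exponent_le hX1 hA2
    have e4 : n * 4 ≤ n ^ 2 := by nlinarith
    nlinarith
  · rw [not_nonempty_iff_eq_empty] at hne
    rw [hne]
    simp

theorem wnu (h1 : ExsS) (h2 : NcsS) : WnuS := by
  classical
  intro n s Q0 f G h3 hsn hN hf hc0 S hs
  obtain ⟨hm, hd, hc⟩ := hN.lead_props
  have hn := hN.hn
  have hnn : 1 ≤ n ^ 2 := Nat.one_le_pow _ _ (by omega)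
  set rts : Finset ℝ := (f.map (Int.castRingHom ℝ)).roots.toFinset with hrts
  have hmR : (f.map (Int.castRingHom ℝ)).Monic := hm.map _
  have hcard : rts.card ≤ n := by
    calc rts.card ≤ Multiset.card (f.map (Int.castRingHom ℝ)).roots := Multiset.toFinset_card_le _
      _ ≤ (f.map (Int.castRingHom ℝ)).natDegree := Polynomial.card_roots' _
      _ = n := by rw [hm.natDegree_map, hd]
  have hmem : ∀ θ : ℝ, aeval θ f = 0 → θ ∈ rts := by
    intro θ hθ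
    rw [hrts, Multiset.mem_toFinset, mem_roots hmR.ne_zero, IsRoot.def, eval_map,
      ← algebraMap_int_eq, ← aeval_def]
    exact hθ
  have hmem' : ∀ θ ∈ rts, aeval θ f = 0 := by
    intro θ hθ
    rw [hrts, Multiset.mem_toFinset, mem_roots hmR.ne_zero, IsRoot.def, eval_map,
      ← algebraMap_int_eq, ← aeval_def] at hθ
    exact hθ
  set T : ℝ → Finset (ℤ × ℤ) := fun θ => S.filter
    (fun P => ∀ θ' ∈ rts, |(P.2 : ℝ) / P.1 - θ| ≤ |(P.2 : ℝ) / P.1 - θ'|) with hT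
  have hsub : S ⊆ rts.biUnion T := by
    intro P hP
    obtain ⟨Q, F, _, hF, _, h0, hbig⟩ := hs P hP
    obtain ⟨_, θ, hθ, _⟩ := far_pointB hF hf P.1 P.2 (by rw [h0]; simp) _
      (pow_le_pow_right₀ (one_le_bb hF.hn hF.hQ) (by nlinarith : n + 3 ≤ 600000 * n ^ 2)) hbig
    obtain ⟨θ1, hθ1, hmin⟩ := rts.exists_min_image (fun θ' => |(P.2 : ℝ) / P.1 - θ'|) ⟨θ, hmem θ hθ⟩
    exact mem_biUnion.2 ⟨θ1, hθ1, mem_filter.2 ⟨hP, hmin⟩⟩
  have hclass : ∀ θ ∈ rts, (T θ).card ≤ 312 * n ^ 2 := by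
    intro θ hθ
    have hTS : T θ ⊆ S := filter_subset _ _
    refine class_countU h1 h2 h3 hsn hf (hmem' θ hθ) hN hc0 (T θ) ⟨?_, ?_⟩
    · exact fun P hP => hs P (hTS hP)
    · exact fun P hP θ' hθ' => (mem_filter.1 hP).2 θ' (hmem θ' hθ')
  calc S.card ≤ ∑ θ ∈ rts, (T θ).card := (card_le_card hsub).trans card_biUnion_le
    _ ≤ ∑ θ ∈ rts, (312 * n ^ 2) := sum_le_sum hclass
    _ = rts.card * (312 * n ^ 2) := by rw [sum_const, smul_eq_mul]
    _ ≤ n * (312 * n ^ 2) := Nat.mul_le_mul_right _ hcard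
    _ = 312 * n ^ 3 := by ring

end Pool.Agent.H99.TA
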