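import Pool.Agent.H99.TA.Def

/-! # [H99 TA LFIN] Only finitely many far pairs on ALL curves with a given leading form

As the finiteness in `Lru.lean`, for all `L` of degree `≤ n - 1`: the two-point theorem (`two_point2`) uses the leading form only; for a given
point the height of `L` is bounded by the point. -/

namespace Pool.Agent.H99.TA.LF

open Finset Polynomial Pool.Agent.H72.ES Pool.Agent.H88.TF Pool.Agent.H88.TZ Pool.Agent.H8.UL

variable {n Q : ℕ} {f : ℤ[X]} {θ : ℝ}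

private theorem norml_mono {Q' : ℕ} {F : ℕ → ℕ → ℤ} (h : Norml n Q f F) (hQ : Q ≤ Q') : Norml n Q' f F where
  hn := h.hn
  hQ := h.hQ.trans hQ
  lead_eq := h.lead_eq
  top := h.top
  bound := fun i j hij => (h.bound i j hij).trans (by exact_mod_cast hQ)

private theorem near_of {F : ℕ → ℕ → ℤ} (hf : Irreducible f) (hN : Norml n Q f F) (P : ℤ × ℤ)
    (h0 : ev n F P.1 P.2 = 0) (k : ℕ) (hk : n + 3 ≤ k)
    (hbig : (Q : ℝ) ^ 2 * bb n Q ^ k ≤ ((max |P.1| |P.2| : ℤ) : ℝ))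
    (hnear : ∀ θ' : ℝ, aeval θ' f = 0 → |(P.2 : ℝ) / P.1 - θ| ≤ |(P.2 : ℝ) / P.1 - θ'|) :
    bb n Q ^ k ≤ |(P.1 : ℝ)| ∧ |(P.2 : ℝ) / P.1 - θ| ≤ 1 / bb n Q := by
  have hb1 := one_le_bb hN.hn hN.hQ
  obtain ⟨h1, θ', h2, h3⟩ := far_pointB hN hf P.1 P.2 (by rw [h0]; simp) _ (pow_le_pow_right₀ hb1 hk) hbig
  exact ⟨h1, (hnear θ' h2).trans h3⟩

private theorem Qsq_le {F : ℕ → ℕ → ℤ} (hN : Norml n Q f F) (k : ℕ) :
    (Q : ℝ) ^ 2 * bb n Q ^ k ≤ bb n Q ^ (k + 1) := by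
  have hb1 := one_le_bb hN.hn hN.hQ
  have h1 : (Q : ℝ) ^ 2 ≤ bb n Q := Qpow_le_bb hN.hn hN.hQ (by
    have := hN.hn
    nlinarith)
  rw [pow_succ, mul_comm]
  exact mul_le_mul_of_nonneg_left h1 (by positivity)

private theorem abs_le_max (P : ℤ × ℤ) : |(P.1 : ℝ)| ≤ ((max |P.1| |P.2| : ℤ) : ℝ) := by
  have h1 : |P.1| ≤ max |P.1| |P.2| := le_max_left _ _
  have h2 : ((|P.1| : ℤ) : ℝ) ≤ ((max |P.1| |P.2| : ℤ) : ℝ) := by exact_mod_cast h1
  rwa [Int.cast_abs] at h2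

/-- a far point on a curve with leading form `f` -/
def Fx (n : ℕ) (f : ℤ[X]) (P : ℤ × ℤ) : Prop :=
  ∃ Q F, Norml n Q f F ∧ ev n F P.1 P.2 = 0 ∧
    (Q : ℝ) ^ 2 * bb n Q ^ (600000 * n ^ 2) ≤ ((max |P.1| |P.2| : ℤ) : ℝ)

/-- the two-point theorem for two points of the same class -/
private theorem two_lt (hf : Irreducible f) (hθ : aeval θ f = 0) (P1 P : ℤ × ℤ) (hP1 : Fx n f P1) (hP : Fx n f P)
    (hn1 : ∀ θ' : ℝ, aeval θ' f = 0 → |(P1.2 : ℝ) / P1.1 - θ| ≤ |(P1.2 : ℝ) / P1.1 - θ'|)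
    (hn2 : ∀ θ' : ℝ, aeval θ' f = 0 → |(P.2 : ℝ) / P.1 - θ| ≤ |(P.2 : ℝ) / P.1 - θ'|) :
    |(P.1 : ℝ)| < |(P1.1 : ℝ)| ^ (2000 * n) ∧ 1 ≤ |(P1.1 : ℝ)| ∧ |(P.2 : ℝ) / P.1 - θ| ≤ 1 ∧ P.1 ≠ 0 := by
  obtain ⟨Q1, F1, hF1, h01, hb01⟩ := hP1
  obtain ⟨Q2, F2, hF2, h02, hb02⟩ := hP
  have hn := hF1.hn
  have hnn : 1 ≤ n ^ 2 := Nat.one_le_pow _ _ (by omega)
  have hbQ1 := one_le_bb hF1.hn hF1.hQ
  have hbQ2 := one_le_bb hF2.hn hF2.hQ
  obtain ⟨hX, hy1⟩ := near_of hf hF1 P1 h01 (600000 * n ^ 2) (by nlinarith) hb01 hn1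
  obtain ⟨hX', hy'⟩ := near_of hf hF2 P h02 (600000 * n ^ 2) (by nlinarith) hb02 hn2
  have hX1 : 1 ≤ |(P1.1 : ℝ)| := (one_le_pow₀ hbQ1).trans hX
  have hX2 : 1 ≤ |(P.1 : ℝ)| := (one_le_pow₀ hbQ2).trans hX'
  refine ⟨?_, hX1, hy'.trans ((div_le_one (by linarith)).2 hbQ2), ?_⟩
  · by_contra hcon
    push Not at hcon
    have hP12 : |(P1.1 : ℝ)| ^ 2 ≤ |(P.1 : ℝ)| :=
      le_trans (pow_le_pow_right₀ hX1 (by omega)) hcon
    have hbig : ((max Q1 Q2 : ℕ) : ℝ) ^ 2 * bb n (max Q1 Q2) ^ (600000 * n ^ 2) ≤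
        ((max |P.1| |P.2| : ℤ) : ℝ) := by
      rcases le_total Q1 Q2 with hle | hle
      · rw [max_eq_right hle]
        exact hb02
      · rw [max_eq_left hle]
        refine (Qsq_le hF1 _).trans ?_
        refine le_trans ?_ (hP12.trans (abs_le_max P))
        calc bb n Q1 ^ (600000 * n ^ 2 + 1) ≤ bb n Q1 ^ (600000 * n ^ 2 * 2) :=
              pow_le_pow_right₀ hbQ1 (by omega)
          _ = (bb n Q1 ^ (600000 * n ^ 2)) ^ 2 := by rw [pow_mul]
          _ ≤ |(P1.1 : ℝ)| ^ 2 := pow_le_pow_left₀ (by positivity) hX 2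
    have hF2' : Norml n (max Q1 Q2) f F2 := norml_mono hF2 (le_max_right _ _)
    obtain ⟨hx2b, hy2⟩ := near_of hf hF2' P h02 (600000 * n ^ 2) (by nlinarith) hbig hn2
    obtain ⟨hm, hd, hc⟩ := hF1.lead_props
    obtain ⟨O⟩ := exists_ord ℝ hF1.hn hF1.hQ hm hd hc hf θ hθ
    exact two_point2 hf O (le_max_left Q1 Q2) hF1 hF2' P1.1 P1.2 P.1 P.2 h01 h02 hy1 hy2
      ((pow_le_pow_right₀ hbQ1 (by nlinarith)).trans hX) hx2b hcon
  · intro h0
    rw [h0] at hX2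
    simp at hX2
    linarith

theorem exfin (hf : Irreducible f) : {P | Fx n f P}.Finite := by
  classical
  by_cases hne0 : {P | Fx n f P}.Nonempty
  · obtain ⟨R, QR, FR, hN, -, -⟩ := hne0
    obtain ⟨hm, hd, hc⟩ := hN.lead_props
    have hn := hN.hn
    have hnn : 1 ≤ n ^ 2 := Nat.one_le_pow _ _ (by omega)
    set rts : Finset ℝ := (f.map (Int.castRingHom ℝ)).roots.toFinset with hrts
    have hmR : (f.map (Int.castRingHom ℝ)).Monic := hm.map _
    have hmem : ∀ θ : ℝ, aeval θ f = 0 → θ ∈ rts := by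
      intro θ hθ
      rw [hrts, Multiset.mem_toFinset, mem_roots hmR.ne_zero, IsRoot.def, eval_map,
        ← algebraMap_int_eq, ← aeval_def]
      exact hθ
    have hmem' : ∀ θ ∈ rts, aeval θ f = 0 := by
      intro θ hθ
      rw [hrts, Multiset.mem_toFinset, mem_roots hmR.ne_zero, IsRoot.def, eval_map,
        ← algebraMap_int_eq, ← aeval_def] at hθ
      exact hθ
    set T : ℝ → Set (ℤ × ℤ) := fun θ =>
      {P | Fx n f P ∧ ∀ θ' ∈ rts, |(P.2 : ℝ) / P.1 - θ| ≤ |(P.2 : ℝ) / P.1 - θ'|} with hT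
    have hsub : {P | Fx n f P} ⊆ {P | ∃ θ ∈ rts, P ∈ T θ} := by
      intro P hP
      obtain ⟨Q, F, hF, h0, hbig⟩ := id hP
      obtain ⟨_, θ, hθ, _⟩ := far_pointB hF hf P.1 P.2 (by rw [h0]; simp) _
        (pow_le_pow_right₀ (one_le_bb hF.hn hF.hQ) (by nlinarith : n + 3 ≤ 600000 * n ^ 2)) hbig
      obtain ⟨θ1, hθ1, hmin⟩ := rts.exists_min_image (fun θ' => |(P.2 : ℝ) / P.1 - θ'|) ⟨θ, hmem θ hθ⟩
      exact ⟨θ1, hθ1, hP, hmin⟩
    have hfin : ∀ θ ∈ rts, (T θ).Finite := by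
      intro θ hθ
      by_cases hne : (T θ).Nonempty
      · obtain ⟨P1, hP1⟩ := hne
        obtain ⟨M, hM⟩ : ∃ M : ℕ, (|θ| + 1) * |(P1.1 : ℝ)| ^ (2000 * n) + |(P1.1 : ℝ)| ^ (2000 * n) ≤ M := exists_nat_ge _
        refine ((Set.finite_Icc (-(M : ℤ)) M).prod (Set.finite_Icc (-(M : ℤ)) M)).subset ?_
        intro P hP
        obtain ⟨a1, a2, a3, a4⟩ := two_lt hf (hmem' θ hθ) P1 P hP1.1 hP.1
          (fun θ' hθ' => hP1.2 θ' (hmem θ' hθ')) (fun θ' hθ' => hP.2 θ' (hmem θ' hθ'))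
        have hp0 : 0 ≤ |(P1.1 : ℝ)| ^ (2000 * n) := by positivity
        have hx : |(P.1 : ℝ)| ≤ M := by
          have h5 : 0 ≤ (|θ| + 1) * |(P1.1 : ℝ)| ^ (2000 * n) := by positivity
          linarith
        have hy : |(P.2 : ℝ)| ≤ M := by
          have hxne : (P.1 : ℝ) ≠ 0 := by exact_mod_cast a4
          have e1 : (P.2 : ℝ) = ((P.2 : ℝ) / P.1 - θ) * P.1 + θ * P.1 := by
            field_simp
            ring
          have e2 : |(P.2 : ℝ)| ≤ (|θ| + 1) * |(P.1 : ℝ)| := by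
            rw [e1]
            refine (abs_add_le _ _).trans ?_
            rw [abs_mul, abs_mul]
            have h6 : |(P.2 : ℝ) / P.1 - θ| * |(P.1 : ℝ)| ≤ 1 * |(P.1 : ℝ)| :=
              mul_le_mul_of_nonneg_right a3 (abs_nonneg _)
            linarith
          have e3 : (|θ| + 1) * |(P.1 : ℝ)| ≤ (|θ| + 1) * |(P1.1 : ℝ)| ^ (2000 * n) :=
            mul_le_mul_of_nonneg_left a1.le (by positivity)
          linarith
        have hx' : |P.1| ≤ (M : ℤ) := by exact_mod_cast hx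
        have hy' : |P.2| ≤ (M : ℤ) := by exact_mod_cast hy
        exact ⟨⟨(abs_le.1 hx').1, (abs_le.1 hx').2⟩, ⟨(abs_le.1 hy').1, (abs_le.1 hy').2⟩⟩
      · rw [Set.not_nonempty_iff_eq_empty] at hne
        rw [hne]
        exact Set.finite_empty
    have hU : {P | ∃ θ ∈ rts, P ∈ T θ}.Finite := by
      have h1 := Set.Finite.biUnion rts.finite_toSet hfin
      refine h1.subset ?_
      rintro P ⟨θ, hθ, hP⟩
      exact Set.mem_biUnion (mem_coe.2 hθ) hP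
    exact hU.subset hsub
  · rw [Set.not_nonempty_iff_eq_empty] at hne0
    rw [hne0]
    exact Set.finite_empty

private theorem lead_nrm_congr {n : ℕ} {F G : ℕ → ℕ → ℤ} (h : ∀ i j, i + j = n → F i j = G i j) :
    lead n (nrm n F) = lead n (nrm n G) := by
  unfold lead
  refine sum_congr rfl fun j hj => ?_
  simp only [mem_range] at hj
  congr 2
  simp only [nrm]
  rw [h 0 n (by omega), h (n - j) j (by omega)]

private theorem threshold_le6 {n H : ℕ} (hn : 4 ≤ n) (hH : 2 ≤ H) :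
    (((2 * H ^ n : ℕ) : ℝ)) ^ 2 * bb n (2 * H ^ n) ^ (600000 * n ^ 2) ≤
      (H : ℝ) ^ (6000000 * n ^ 5) := by
  have hHR : (1 : ℝ) ≤ H := by exact_mod_cast (by omega : 1 ≤ H)
  have hQH : ((2 * H ^ n : ℕ) : ℝ) ≤ (H : ℝ) ^ (n + 1) := by
    push_cast
    have : (2 : ℝ) ≤ H := by exact_mod_cast hH
    calc 2 * (H : ℝ) ^ n ≤ H * (H : ℝ) ^ n := by gcongr
      _ = (H : ℝ) ^ (n + 1) := by ring
  unfold bb
  set Q : ℝ := ((2 * H ^ n : ℕ) : ℝ) with hQ
  have hQ0 : (0 : ℝ) ≤ Q := Nat.cast_nonneg _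
  calc Q ^ 2 * (Q ^ (7 * n ^ 2)) ^ (600000 * n ^ 2) = Q ^ (2 + 4200000 * n ^ 4) := by
        rw [← pow_mul, ← pow_add]
        congr 1
        ring
    _ ≤ ((H : ℝ) ^ (n + 1)) ^ (2 + 4200000 * n ^ 4) := pow_le_pow_left₀ hQ0 hQH _
    _ = (H : ℝ) ^ ((n + 1) * (2 + 4200000 * n ^ 4)) := by rw [← pow_mul]
    _ ≤ (H : ℝ) ^ (6000000 * n ^ 5) := by
        refine pow_le_pow_right₀ hHR ?_
        have h3 : 4 * (n + 1) ≤ 5 * n := by omega
        have h4 : 2 + 4200000 * n ^ 4 ≤ 4200001 * n ^ 4 := by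
          have : 2 ≤ n ^ 4 := by
            calc 2 ≤ 4 ^ 4 := by norm_num
              _ ≤ n ^ 4 := Nat.pow_le_pow_left hn 4
          omega
        have h5 : 4 * ((n + 1) * (2 + 4200000 * n ^ 4)) ≤ 4 * (6000000 * n ^ 5) := by
          calc 4 * ((n + 1) * (2 + 4200000 * n ^ 4)) = (4 * (n + 1)) * (2 + 4200000 * n ^ 4) := by ring
            _ ≤ (5 * n) * (4200001 * n ^ 4) := Nat.mul_le_mul h3 h4
            _ = 21000005 * n ^ 5 := by ring
            _ ≤ 24000000 * n ^ 5 := Nat.mul_le_mul_right _ (by norm_num)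
            _ = 4 * (6000000 * n ^ 5) := by ring
        omega

/-- the polynomials of bounded degree and height are finitely many -/
theorem polys_finite (d : ℕ) (K : ℤ) :
    {L : MvPolynomial (Fin 2) ℤ | L.totalDegree ≤ d ∧ ∀ m, |L.coeff m| ≤ K}.Finite := by
  classical
  refine Set.Finite.of_finite_image (f := fun L : MvPolynomial (Fin 2) ℤ =>
    fun p : Fin (d + 1) × Fin (d + 1) => L.coeff (ex (p.1 : ℕ) (p.2 : ℕ)))
    ((Set.finite_Icc (fun _ : Fin (d + 1) × Fin (d + 1) => -K) (fun _ => K)).subset ?_) ?_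
  · rintro _ ⟨L, hL, rfl⟩
    exact ⟨fun p => (abs_le.1 (hL.2 _)).1, fun p => (abs_le.1 (hL.2 _)).2⟩
  · intro L hL M hM hLM
    have hL' : L.totalDegree ≤ d := hL.1
    have hM' : M.totalDegree ≤ d := hM.1
    refine arrM_inj ?_
    funext i j
    by_cases h : d < i + j
    · rw [arrM_supp hL' i j h, arrM_supp hM' i j h]
    · have h1 := congrFun hLM (⟨i, by omega⟩, ⟨j, by omega⟩)
      exact h1

open MvPolynomial in
/-- only finitely many far pairs on all curves with the leading form of `F` -/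
theorem lfin (n : ℕ) (hn : 4 ≤ n) (B S : ℕ) (hB : 2 ≤ B) (hS : 1 ≤ S)
    (F : MvPolynomial (Fin 2) ℤ) (hF : F.totalDegree ≤ n)
    (hirr : Irreducible (map (Int.castRingHom ℚ) (homogeneousComponent n F)))
    (hFB : ∀ m : Fin 2 →₀ ℕ, m.degree = n → |F.coeff m| ≤ (B : ℤ))
    (hFb : ∀ m : Fin 2 →₀ ℕ, m.degree < n → |F.coeff m| ≤ (S : ℤ) ^ (n - m.degree))
    (E : Set (MvPolynomial (Fin 2) ℤ × (Fin 2 → ℤ)))
    (hE : ∀ q ∈ E, q.1.totalDegree ≤ n - 1 ∧ eval q.2 (F + q.1) = 0 ∧ ∃ h : ℕ, 1 ≤ h ∧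
      (∀ m, |q.1.coeff m| ≤ (h : ℤ)) ∧
      ((B : ℤ) * S ^ n * h) ^ (6000000 * n ^ 5) < max |q.2 0| |q.2 1|) :
    E.Finite := by
  classical
  obtain ⟨e, he⟩ : ∃ e, e = n - 1 := ⟨_, rfl⟩
  have hSn1 : 1 ≤ S ^ n := Nat.one_le_pow _ _ hS
  have hdeg : F.totalDegree = n := by
    refine le_antisymm hF ?_
    by_contra hcon
    push Not at hcon
    have h1 : homogeneousComponent n F = 0 := homogeneousComponent_eq_zero n F hcon
    rw [h1, map_zero] at hirr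
    exact hirr.ne_zero rfl
  -- the heights
  have hht : ∀ (L : MvPolynomial (Fin 2) ℤ) (h : ℕ), 1 ≤ h → L.totalDegree ≤ e → (∀ m, |L.coeff m| ≤ (h : ℤ)) →
      ∀ m, |(F + L).coeff m| ≤ ((B * S ^ n * h : ℕ) : ℤ) := by
    intro L h hh hLd hL m
    have hBh : B ≤ B * S ^ n * h :=
      (Nat.le_mul_of_pos_right _ hSn1).trans (Nat.le_mul_of_pos_right _ hh)
    have hsum : S ^ n + h ≤ B * S ^ n * h := by
      have h1 : S ^ n + h ≤ 2 * (S ^ n * h) := by nlinarith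
      have h2 : 2 * (S ^ n * h) ≤ B * (S ^ n * h) := Nat.mul_le_mul_right _ hB
      rw [mul_assoc]
      exact h1.trans h2
    have hsz : (S : ℤ) ^ n + h ≤ ((B * S ^ n * h : ℕ) : ℤ) := by exact_mod_cast hsum
    have hSd : ∀ d, (S : ℤ) ^ (n - d) ≤ (S : ℤ) ^ n := by
      intro d
      exact_mod_cast Nat.pow_le_pow_right hS (by omega)
    rw [MvPolynomial.coeff_add]
    rcases Nat.lt_or_ge m.degree n with h1 | h1
    · have h2 := (hFb m h1).trans (hSd _)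
      calc |F.coeff m + L.coeff m| ≤ |F.coeff m| + |L.coeff m| := abs_add_le _ _
        _ ≤ (S : ℤ) ^ n + h := add_le_add h2 (hL m)
        _ ≤ ((B * S ^ n * h : ℕ) : ℤ) := hsz
    · have h2 : L.coeff m = 0 := by
        by_contra h3
        have h4 := le_totalDegree (MvPolynomial.mem_support_iff.2 h3)
        have h5 : (m.sum fun _ e => e) = m.degree := rfl
        omega
      rw [h2, add_zero]
      rcases h1.lt_or_eq with h6 | h6
      · have h7 : F.coeff m = 0 := by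
          by_contra h3
          have h4 := le_totalDegree (MvPolynomial.mem_support_iff.2 h3)
          have h5 : (m.sum fun _ e => e) = m.degree := rfl
          omega
        rw [h7, abs_zero]
        positivity
      · refine (hFB m h6.symm).trans ?_
        exact_mod_cast hBh
  obtain ⟨G, hG⟩ : ∃ G, G = arrM F := ⟨_, rfl⟩
  obtain ⟨ha, hirr'⟩ := leadQ_of_irreducible (by omega : 2 ≤ n) hirr
  rw [← hG] at ha hirr'
  have hH0 : 2 ≤ B * S ^ n := hB.trans (Nat.le_mul_of_pos_right _ hSn1)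
  have hfirr := lead_nrm_irreducible (by omega : 1 ≤ n) G ha hirr'
  have htd : ∀ q ∈ E, (F + q.1).totalDegree ≤ n := by
    intro q hq
    refine (totalDegree_add _ _).trans ?_
    rw [hdeg]
    exact max_le le_rfl ((hE q hq).1.trans (by omega))
  have htop : ∀ q ∈ E, ∀ i j, i + j = n → arrM (F + q.1) i j = G i j := by
    intro q hq i j hij
    have h1 := arrM_supp (hE q hq).1 i j (by omega)
    rw [hG]
    simp only [arrM] at h1 ⊢
    rw [MvPolynomial.coeff_add, h1, add_zero]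
  have hzero : ∀ q ∈ E, ev n (arrM (F + q.1)) (q.2 0) (q.2 1) = 0 := by
    intro q hq
    rw [← eval_arrM (htd q hq)]
    have hP2 : ![q.2 0, q.2 1] = q.2 := by
      funext i
      fin_cases i <;> rfl
    rw [hP2]
    exact (hE q hq).2.1
  have hEx : ∀ q ∈ E, Fx n (lead n (nrm n G)) (q.2 0, G 0 n * q.2 1) := by
    intro q hq
    obtain ⟨hL, hP, h, hh, hLc, hbig⟩ := hE q hq
    have hLd : q.1.totalDegree ≤ e := by rw [he]; exact hL
    have hcoef := hht q.1 h hh hLd hLc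
    have h2H : 2 ≤ B * S ^ n * h := hH0.trans (Nat.le_mul_of_pos_right _ hh)
    have hN := norml_nrm hn h2H (F := arrM (F + q.1)) (G := arrM (F + q.1)) (fun i j _ _ => rfl)
      (fun i j _ => hcoef _)
    rw [lead_nrm_congr (htop q hq)] at hN
    refine ⟨2 * (B * S ^ n * h) ^ n, nrm n (arrM (F + q.1)), hN, ?_, ?_⟩
    · have hF0 : arrM (F + q.1) 0 n = G 0 n := htop q hq 0 n (by omega)
      have h3 := ev_nrm (by omega : 1 ≤ n) (arrM (F + q.1)) (q.2 0) (q.2 1)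
      rw [hF0] at h3
      simp only
      rw [h3, hzero q hq, mul_zero]
    · have hmax : max |q.2 0| |q.2 1| ≤ max |q.2 0| |G 0 n * q.2 1| := by
        refine max_le_max le_rfl ?_
        rw [abs_mul]
        have : 1 ≤ |G 0 n| := Int.one_le_abs ha
        nlinarith [abs_nonneg (q.2 1)]
      have hbig' : (((B * S ^ n * h : ℕ) : ℤ)) ^ (6000000 * n ^ 5) < max |q.2 0| |q.2 1| := by
        push_cast
        exact hbig
      have h3 : ((((B * S ^ n * h : ℕ) : ℤ) ^ (6000000 * n ^ 5) : ℤ) : ℝ) ≤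
          ((max |q.2 0| |G 0 n * q.2 1| : ℤ) : ℝ) := by
        exact_mod_cast (hbig'.le.trans hmax)
      refine le_trans (threshold_le6 hn h2H) ?_
      rw [Int.cast_pow, Int.cast_natCast] at h3
      exact h3
  -- the points
  have hpts : (Prod.snd '' E).Finite := by
    refine Set.Finite.of_finite_image (f := fun P : Fin 2 → ℤ => ((P 0, G 0 n * P 1) : ℤ × ℤ))
      ((exfin (n := n) hfirr).subset ?_) ?_
    · rintro _ ⟨_, ⟨q, hq, rfl⟩, rfl⟩
      exact hEx q hq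
    · intro P _ R _ hPR
      simp only [Prod.mk.injEq] at hPR
      have e1 : P 1 = R 1 := mul_left_cancel₀ ha hPR.2
      funext i
      fin_cases i
      · exact hPR.1
      · exact e1
  refine (Set.Finite.biUnion hpts (t := fun P : Fin 2 → ℤ =>
    ({L : MvPolynomial (Fin 2) ℤ | L.totalDegree ≤ n - 1 ∧ ∀ m, |L.coeff m| ≤ max |P 0| |P 1|} ×ˢ {P}))
    (fun P _ => (polys_finite _ _).prod (Set.finite_singleton P))).subset ?_
  intro q hq
  obtain ⟨hL, hP, h, hh, hLc, hbig⟩ := hE q hq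
  refine Set.mem_biUnion (Set.mem_image_of_mem _ hq) ⟨⟨hL, fun m => (hLc m).trans ?_⟩, rfl⟩
  have h2H : 2 ≤ B * S ^ n * h := hH0.trans (Nat.le_mul_of_pos_right _ hh)
  have h3 : h ≤ B * S ^ n * h := Nat.le_mul_of_pos_left _ (by omega)
  have h4 : B * S ^ n * h ≤ (B * S ^ n * h) ^ (6000000 * n ^ 5) :=
    Nat.le_self_pow (by positivity) _
  have h5 : (h : ℤ) ≤ ((B : ℤ) * S ^ n * h) ^ (6000000 * n ^ 5) := by exact_mod_cast h3.trans h4
  exact h5.trans hbig.le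

end Pool.Agent.H99.TA.LF
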