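import Pool.Agent.H99.TA.Def
import Pool.Agent.H99.TA.Cov

/-! # [H99 TA LNU] All far points of a fibre, of all heights, lie on few lines

As `Wnu.lean`, without a condition on the contact: in a window no five points are in general position (`gap`), so `6` lines contain all of
them (`cov6`). The exceptional set is finite (`two_point2`). -/

namespace Pool.Agent.H99.TA

open Finset Polynomial Pool.Agent.H72.ES Pool.Agent.H88.TF Pool.Agent.H88.TZ Pool.Agent.H8.UL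

variable {n s Q : ℕ} {f : ℤ[X]} {θ : ℝ}

private theorem top4_of_tops (h3 : 3 ≤ s) {F G : ℕ → ℕ → ℤ} (h : Tops n s F G) : Top4 n F G :=
  fun i j h1 h2 => h i j h1 (by omega)

private theorem two_pow_le_window4 (hn : 1 ≤ n) (k : ℕ) :
    (2 : ℝ) ^ k ≤ (1 + 1 / (4 * (n : ℝ))) ^ (4 * n * k) := by
  have hn0 : (0 : ℝ) < n := by exact_mod_cast hn
  have h1 : (2 : ℝ) ≤ (1 + 1 / (4 * (n : ℝ))) ^ (4 * n) := by
    have := one_add_mul_le_pow (a := 1 / (4 * (n : ℝ))) (by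
      have : (0 : ℝ) ≤ 1 / (4 * (n : ℝ)) := by positivity
      linarith) (4 * n)
    refine le_trans ?_ this
    push_cast
    have : (4 * (n : ℝ)) * (1 / (4 * (n : ℝ))) = 1 := by field_simp
    rw [this]
    norm_num
  rw [pow_mul]
  exact pow_le_pow_left₀ (by norm_num) h1 k

private theorem norml_mono {Q' : ℕ} {F : ℕ → ℕ → ℤ} (h : Norml n Q f F) (hQ : Q ≤ Q') : Norml n Q' f F where
  hn := h.hn
  hQ := h.hQ.trans hQ
  lead_eq := h.lead_eq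
  top := h.top
  bound := fun i j hij => (h.bound i j hij).trans (by exact_mod_cast hQ)

/-- the points near `θ` on the curves of a fibre, each with its own height -/
private structure PtsU (n s Q0 : ℕ) (f : ℤ[X]) (G : ℕ → ℕ → ℤ) (θ : ℝ) (S : Finset (ℤ × ℤ)) : Prop where
  mem : ∀ P ∈ S, ∃ Q F, Q0 ≤ Q ∧ Norml n Q f F ∧ Tops n s F G ∧ ev n F P.1 P.2 = 0 ∧
    (Q : ℝ) ^ 2 * bb n Q ^ (600000 * n ^ 2) ≤ ((max |P.1| |P.2| : ℤ) : ℝ)
  near : ∀ P ∈ S, ∀ θ' : ℝ, aeval θ' f = 0 → |(P.2 : ℝ) / P.1 - θ| ≤ |(P.2 : ℝ) / P.1 - θ'|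

private theorem PtsU.mono {Q0 : ℕ} {G : ℕ → ℕ → ℤ} {S T : Finset (ℤ × ℤ)} (h : PtsU n s Q0 f G θ S)
    (hT : T ⊆ S) : PtsU n s Q0 f G θ T where
  mem := fun P hP => h.mem P (hT hP)
  near := fun P hP => h.near P (hT hP)

private theorem near_of {F : ℕ → ℕ → ℤ} (hf : Irreducible f) (hN : Norml n Q f F) (P : ℤ × ℤ)
    (h0 : ev n F P.1 P.2 = 0) (k : ℕ) (hk : n + 3 ≤ k)
    (hbig : (Q : ℝ) ^ 2 * bb n Q ^ k ≤ ((max |P.1| |P.2| : ℤ) : ℝ))
    (hnear : ∀ θ' : ℝ, aeval θ' f = 0 → |(P.2 : ℝ) / P.1 - θ| ≤ |(P.2 : ℝ) / P.1 - θ'|) :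
    bb n Q ^ k ≤ |(P.1 : ℝ)| ∧ |(P.2 : ℝ) / P.1 - θ| ≤ 1 / bb n Q := by
  have hb1 := one_le_bb hN.hn hN.hQ
  obtain ⟨h1, θ', h2, h3⟩ := far_pointB hN hf P.1 P.2 (by rw [h0]; simp) _ (pow_le_pow_right₀ hb1 hk) hbig
  exact ⟨h1, (hnear θ' h2).trans h3⟩

private theorem Qsq_le {F : ℕ → ℕ → ℤ} (hN : Norml n Q f F) (k : ℕ) :
    (Q : ℝ) ^ 2 * bb n Q ^ k ≤ bb n Q ^ (k + 1) := by
  have hb1 := one_le_bb hN.hn hN.hQ
  have h1 : (Q : ℝ) ^ 2 ≤ bb n Q := Qpow_le_bb hN.hn hN.hQ (by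
    have := hN.hn
    nlinarith)
  rw [pow_succ, mul_comm]
  exact mul_le_mul_of_nonneg_left h1 (by positivity)

private theorem abs_le_max (P : ℤ × ℤ) : |(P.1 : ℝ)| ≤ ((max |P.1| |P.2| : ℤ) : ℝ) := by
  have h1 : |P.1| ≤ max |P.1| |P.2| := le_max_left _ _
  have h2 : ((|P.1| : ℤ) : ℝ) ≤ ((max |P.1| |P.2| : ℤ) : ℝ) := by exact_mod_cast h1
  rwa [Int.cast_abs] at h2


/-- no five points of a window are in general position -/
private theorem no_five (hs3 : 3 ≤ s) {G : ℕ → ℕ → ℤ} (hN : Norml n Q f G) (O : Ord ℝ n Q f θ)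
    (br : Branch O G) (S : Finset (ℤ × ℤ)) (hmem : ∀ P ∈ S, ∃ F, Norml n Q f F ∧ Tops n s F G ∧ ev n F P.1 P.2 = 0)
    (hnear : ∀ P ∈ S, |(P.2 : ℝ) / P.1 - θ| ≤ 1 / bb n Q) (X : ℝ) (hX : bb n Q ^ (60 * n ^ 2) ≤ X)
    (hx1 : ∀ P ∈ S, X ≤ |(P.1 : ℝ)|)
    (hx2 : ∀ P ∈ S, |(P.1 : ℝ)| ≤ X ^ (1 + 1 / (4 * (n : ℝ)))) :
    ¬ ∃ p : Fin 5 → ℤ × ℤ, (∀ i, p i ∈ S) ∧ Function.Injective p ∧
      ∀ i j k, i ≠ j → i ≠ k → j ≠ k → ¬ Col (p i) (p j) (p k) := by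
  rintro ⟨p, hpS, hpi, hpc⟩
  have hn4 : 4 ≤ n := hN.hn
  have hb1 := one_le_bb hN.hn hN.hQ
  have h4b : (4 : ℝ) ≤ bb n Q := le_trans (by norm_num) (thousand_le_bb hN.hn hN.hQ)
  have hX1 : (1 : ℝ) ≤ X := (one_le_pow₀ hb1).trans hX
  obtain ⟨hbe, hga, hde⟩ := expand_bounds hN br
  have hbe' : |br.be| ≤ bb n Q ^ 10 := hbe.trans (pow_le_pow_right₀ hb1 (by norm_num))
  have hga' : |br.ga| ≤ bb n Q ^ 10 := hga.trans (pow_le_pow_right₀ hb1 (by norm_num))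
  have hE : ∀ i, |((p i).2 : ℝ) - (θ * (p i).1 + br.be + br.ga / (p i).1 +
      br.de / ((p i).1 : ℝ) ^ 2)| ≤ bb n Q ^ 25 / |((p i).1 : ℝ)| ^ 3 := by
    intro i
    obtain ⟨F, hF, hFG, h0⟩ := hmem _ (hpS i)
    refine expand4g hF hN (top4_of_tops hs3 hFG) br (p i).1 (p i).2 ?_ (hnear _ (hpS i)) h0
    refine le_trans ?_ ((hX.trans (hx1 _ (hpS i))))
    exact pow_le_pow_right₀ hb1 (by nlinarith)
  have hXs : bb n Q ^ (200 * n) < X := by
    refine lt_of_lt_of_le ?_ hX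
    exact pow_lt_pow_right₀ (by linarith) (by
      have := hN.hn
      nlinarith)
  have hn0 : (0 : ℝ) < n := by
    have := hN.hn
    exact_mod_cast (by omega : 0 < n)
  have hmono : X ^ (1 + 1 / (4 * (n : ℝ))) ≤ X ^ (1 + 1 / (3 * (n : ℝ))) := by
    refine Real.rpow_le_rpow_of_exponent_le hX1 ?_
    have h9 : 1 / (4 * (n : ℝ)) ≤ 1 / (3 * (n : ℝ)) := one_div_le_one_div_of_le (by positivity) (by linarith)
    linarith
  exact gap hN.hn hN.hQ O br.be br.ga br.de hbe' hga' hde X hXs p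
    (fun i => hx1 _ (hpS i)) (fun i => (hx2 _ (hpS i)).trans hmono) hE hpc

private theorem one_windowL (hs3 : 3 ≤ s) (hf : Irreducible f) (hθ : aeval θ f = 0)
    {Q0 : ℕ} {G : ℕ → ℕ → ℤ} (hN : Norml n Q0 f G)
    (S : Finset (ℤ × ℤ)) (hS : PtsU n s Q0 f G θ S) (X : ℝ) (hX1 : 1 ≤ X)
    (hx1 : ∀ P ∈ S, X ≤ |(P.1 : ℝ)|)
    (hx2 : ∀ P ∈ S, |(P.1 : ℝ)| ≤ X ^ (1 + 1 / (4 * (n : ℝ)))) : Cov 6 (S : Set (ℤ × ℤ)) := by
  classical
  by_cases hne : S.Nonempty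
  · have hn := hN.hn
    choose! Qf Ff hQ0 hNf hTf h0f hbf using hS.mem
    obtain ⟨R, hR, hmax⟩ := S.exists_max_image Qf hne
    obtain ⟨Q1, hQ1⟩ : ∃ Q1, Q1 = Qf R := ⟨_, rfl⟩
    have hNR : Norml n Q1 f (Ff R) := by rw [hQ1]; exact hNf R hR
    have hNG : Norml n Q1 f G := norml_mono hN (by rw [hQ1]; exact hQ0 R hR)
    have hb1 := one_le_bb hNG.hn hNG.hQ
    have hnn : 1 ≤ n ^ 2 := Nat.one_le_pow _ _ (by omega)
    have hn0 : (0 : ℝ) < n := by exact_mod_cast (by omega : 0 < n)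
    have hRX : bb n Q1 ^ (600000 * n ^ 2) ≤ |(R.1 : ℝ)| := by
      refine (near_of hf hNR R (h0f R hR) (600000 * n ^ 2) (by nlinarith) ?_ (hS.near R hR)).1
      rw [hQ1]
      exact hbf R hR
    have hXb : bb n Q1 ^ (300000 * n ^ 2) ≤ X := by
      have e1 : X ^ (1 + 1 / (4 * (n : ℝ))) ≤ X ^ (2 : ℝ) := by
        refine Real.rpow_le_rpow_of_exponent_le hX1 ?_
        have h9 : 1 / (4 * (n : ℝ)) ≤ 1 := by
          rw [div_le_one (by positivity)]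
          have : (4 : ℝ) ≤ n := by exact_mod_cast hn
          linarith
        linarith
      have e2 : (bb n Q1 ^ (300000 * n ^ 2)) ^ 2 ≤ X ^ 2 := by
        calc (bb n Q1 ^ (300000 * n ^ 2)) ^ 2 = bb n Q1 ^ (600000 * n ^ 2) := by
              rw [← pow_mul]; congr 1; ring
          _ ≤ |(R.1 : ℝ)| := hRX
          _ ≤ X ^ (1 + 1 / (4 * (n : ℝ))) := hx2 R hR
          _ ≤ X ^ (2 : ℝ) := e1
          _ = X ^ 2 := by
              rw [← Real.rpow_natCast]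
              norm_num
      exact le_of_sq_le_sq e2 (by linarith)
    have hNn : ∀ P ∈ S, Norml n Q1 f (Ff P) := fun P hP =>
      norml_mono (hNf P hP) (by rw [hQ1]; exact hmax P hP)
    obtain ⟨hm, hd, hc⟩ := hNG.lead_props
    obtain ⟨O⟩ := exists_ord ℝ hNG.hn hNG.hQ hm hd hc hf θ hθ
    obtain ⟨br⟩ := exists_branch O hNG
    refine cov6 S (no_five hs3 hNG O br S (fun P hP => ⟨Ff P, hNn P hP, hTf P hP, h0f P hP⟩) ?_ X ?_ hx1 hx2)
    · intro P hP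
      refine (near_of hf (hNn P hP) P (h0f P hP) (n + 3) le_rfl ?_ (hS.near P hP)).2
      refine (Qsq_le hNG (n + 3)).trans ?_
      refine le_trans (pow_le_pow_right₀ hb1 ?_) (hXb.trans ((hx1 P hP).trans (abs_le_max P)))
      nlinarith
    · refine le_trans (pow_le_pow_right₀ hb1 ?_) hXb
      nlinarith
  · rw [not_nonempty_iff_eq_empty] at hne
    rw [hne]
    exact Cov.zero.mono (by norm_num) (by simp)

private theorem windowsL (hs3 : 3 ≤ s) (hf : Irreducible f) (hθ : aeval θ f = 0)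
    {Q0 : ℕ} {G : ℕ → ℕ → ℤ} (hN : Norml n Q0 f G) (m : ℕ) :
    ∀ (S : Finset (ℤ × ℤ)), PtsU n s Q0 f G θ S → ∀ X : ℝ, 1 ≤ X → (∀ P ∈ S, X ≤ |(P.1 : ℝ)|) →
    (∀ P ∈ S, |(P.1 : ℝ)| < X ^ ((1 + 1 / (4 * (n : ℝ))) ^ m)) → Cov (6 * m) (S : Set (ℤ × ℤ)) := by
  induction m with
  | zero =>
    intro S _ X _ h1 h2
    have : S = ∅ := by
      apply eq_empty_of_forall_notMem
      intro P hP
      have e1 := h1 P hP
      have e2 := h2 P hP
      simp only [pow_zero, Real.rpow_one] at e2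
      linarith
    rw [this]
    exact Cov.zero.mono (by norm_num) (by simp)
  | succ m ih =>
    intro S hS X hX1 h1 h2
    have hX0 : 0 < X := by linarith
    set δ : ℝ := 1 + 1 / (4 * (n : ℝ)) with hδ
    have hn0 : (0 : ℝ) < n := by
      have := hN.hn
      exact_mod_cast (by omega : 0 < n)
    have hδ1 : 1 ≤ δ := by
      have : (0 : ℝ) ≤ 1 / (4 * (n : ℝ)) := by positivity
      linarith
    have hXδ : X ≤ X ^ δ := by
      calc X = X ^ (1 : ℝ) := (Real.rpow_one X).symm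
        _ ≤ X ^ δ := Real.rpow_le_rpow_of_exponent_le hX1 hδ1
    set S1 := S.filter (fun P => |(P.1 : ℝ)| < X ^ δ) with hS1
    set S2 := S.filter (fun P => ¬ |(P.1 : ℝ)| < X ^ δ) with hS2
    have hs1 : S1 ⊆ S := filter_subset _ _
    have hs2 : S2 ⊆ S := filter_subset _ _
    have e1 : Cov 6 (S1 : Set (ℤ × ℤ)) := by
      refine one_windowL hs3 hf hθ hN S1 (hS.mono hs1) X hX1
        (fun P hP => h1 P (hs1 hP)) ?_
      intro P hP
      exact ((mem_filter.1 hP).2).le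
    have e2 : Cov (6 * m) (S2 : Set (ℤ × ℤ)) := by
      refine ih S2 (hS.mono hs2) (X ^ δ) (hX1.trans hXδ) ?_ ?_
      · intro P hP
        exact not_lt.1 (mem_filter.1 hP).2
      · intro P hP
        have := h2 P (hs2 hP)
        rw [← Real.rpow_mul hX0.le]
        have e3 : δ * δ ^ m = δ ^ (m + 1) := by ring
        rw [e3]
        exact this
    refine (e1.union e2).mono (by omega) ?_
    intro P hP
    have hP' : P ∈ S := hP
    by_cases h5 : |(P.1 : ℝ)| < X ^ δ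
    · left
      exact mem_coe.2 (mem_filter.2 ⟨hP', h5⟩)
    · right
      exact mem_coe.2 (mem_filter.2 ⟨hP', h5⟩)

/-- the two-point theorem for two points of the same class -/
private theorem two_lt (hf : Irreducible f) (hθ : aeval θ f = 0)
    {Q0 : ℕ} {G : ℕ → ℕ → ℤ} (S : Finset (ℤ × ℤ)) (hS : PtsU n s Q0 f G θ S) (P1 P : ℤ × ℤ) (hP1 : P1 ∈ S) (hP : P ∈ S) :
    |(P.1 : ℝ)| < |(P1.1 : ℝ)| ^ (2000 * n) ∧ 1 ≤ |(P1.1 : ℝ)| ∧ |(P.2 : ℝ) / P.1 - θ| ≤ 1 ∧ P.1 ≠ 0 := by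
  obtain ⟨Q1, F1, _, hF1, _, h01, hb01⟩ := hS.mem P1 hP1
  obtain ⟨Q2, F2, _, hF2, _, h02, hb02⟩ := hS.mem P hP
  have hn := hF1.hn
  have hnn : 1 ≤ n ^ 2 := Nat.one_le_pow _ _ (by omega)
  have hbQ1 := one_le_bb hF1.hn hF1.hQ
  have hbQ2 := one_le_bb hF2.hn hF2.hQ
  obtain ⟨hX, hy1⟩ := near_of hf hF1 P1 h01 (600000 * n ^ 2) (by nlinarith) hb01 (hS.near P1 hP1)
  obtain ⟨hX', hy'⟩ := near_of hf hF2 P h02 (600000 * n ^ 2) (by nlinarith) hb02 (hS.near P hP)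
  have hX1 : 1 ≤ |(P1.1 : ℝ)| := (one_le_pow₀ hbQ1).trans hX
  have hX2 : 1 ≤ |(P.1 : ℝ)| := (one_le_pow₀ hbQ2).trans hX'
  refine ⟨?_, hX1, hy'.trans ((div_le_one (by linarith)).2 hbQ2), ?_⟩
  · by_contra hcon
    push Not at hcon
    have hP12 : |(P1.1 : ℝ)| ^ 2 ≤ |(P.1 : ℝ)| :=
      le_trans (pow_le_pow_right₀ hX1 (by omega)) hcon
    have hbig : ((max Q1 Q2 : ℕ) : ℝ) ^ 2 * bb n (max Q1 Q2) ^ (600000 * n ^ 2) ≤
        ((max |P.1| |P.2| : ℤ) : ℝ) := by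
      rcases le_total Q1 Q2 with hle | hle
      · rw [max_eq_right hle]
        exact hb02
      · rw [max_eq_left hle]
        refine (Qsq_le hF1 _).trans ?_
        refine le_trans ?_ (hP12.trans (abs_le_max P))
        calc bb n Q1 ^ (600000 * n ^ 2 + 1) ≤ bb n Q1 ^ (600000 * n ^ 2 * 2) :=
              pow_le_pow_right₀ hbQ1 (by omega)
          _ = (bb n Q1 ^ (600000 * n ^ 2)) ^ 2 := by rw [pow_mul]
          _ ≤ |(P1.1 : ℝ)| ^ 2 := pow_le_pow_left₀ (by positivity) hX 2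
    have hF2' : Norml n (max Q1 Q2) f F2 := norml_mono hF2 (le_max_right _ _)
    obtain ⟨hx2b, hy2⟩ := near_of hf hF2' P h02 (600000 * n ^ 2) (by nlinarith) hbig (hS.near P hP)
    obtain ⟨hm, hd, hc⟩ := hF1.lead_props
    obtain ⟨O⟩ := exists_ord ℝ hF1.hn hF1.hQ hm hd hc hf θ hθ
    exact two_point2 hf O (le_max_left Q1 Q2) hF1 hF2' P1.1 P1.2 P.1 P.2 h01 h02 hy1 hy2
      ((pow_le_pow_right₀ hbQ1 (by nlinarith)).trans hX) hx2b hcon
  · intro h0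
    rw [h0] at hX2
    simp at hX2
    linarith

private theorem class_L (hs3 : 3 ≤ s) (hf : Irreducible f) (hθ : aeval θ f = 0)
    {Q0 : ℕ} {G : ℕ → ℕ → ℤ} (hN : Norml n Q0 f G)
    (S : Finset (ℤ × ℤ)) (hS : PtsU n s Q0 f G θ S) : Cov (6 * (4 * n * (n + 9))) (S : Set (ℤ × ℤ)) := by
  classical
  have hn := hN.hn
  by_cases hne : S.Nonempty
  · obtain ⟨P1, hP1, hmin⟩ := S.exists_min_image (fun P => |(P.1 : ℝ)|) hne
    have h4n := four_n_le hn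
    have hA2 : ((2000 * n : ℕ) : ℝ) ≤ (1 + 1 / (4 * (n : ℝ))) ^ (4 * n * (n + 9)) := by
      refine le_trans ?_ (two_pow_le_window4 (by omega) (n + 9))
      have : 2000 * n ≤ 2 ^ (n + 9) := by
        rw [pow_add]
        omega
      exact_mod_cast this
    have hX1 := (two_lt hf hθ S hS P1 P1 hP1 hP1).2.1
    refine windowsL hs3 hf hθ hN _ S hS |(P1.1 : ℝ)| hX1 hmin ?_
    intro P hP
    refine lt_of_lt_of_le (two_lt hf hθ S hS P1 P hP1 hP).1 ?_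
    rw [← Real.rpow_natCast]
    exact Real.rpow_le_rpow_of_exponent_le hX1 hA2
  · rw [not_nonempty_iff_eq_empty] at hne
    rw [hne]
    exact Cov.zero.mono (Nat.zero_le _) (by simp)

/-- an exceptional point of the fibre of `G` -/
def Ex (n s Q0 : ℕ) (f : ℤ[X]) (G : ℕ → ℕ → ℤ) (P : ℤ × ℤ) : Prop :=
  ∃ Q F, Q0 ≤ Q ∧ Norml n Q f F ∧ Tops n s F G ∧ ev n F P.1 P.2 = 0 ∧
    (Q : ℝ) ^ 2 * bb n Q ^ (600000 * n ^ 2) ≤ ((max |P.1| |P.2| : ℤ) : ℝ)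

theorem lnu {Q0 : ℕ} {G : ℕ → ℕ → ℤ} (hs3 : 3 ≤ s) (hN : Norml n Q0 f G) (hf : Irreducible f) :
    Cov (78 * n ^ 3) {P | Ex n s Q0 f G P} ∧ {P | Ex n s Q0 f G P}.Finite := by
  classical
  obtain ⟨hm, hd, hc⟩ := hN.lead_props
  have hn := hN.hn
  have hnn : 1 ≤ n ^ 2 := Nat.one_le_pow _ _ (by omega)
  set rts : Finset ℝ := (f.map (Int.castRingHom ℝ)).roots.toFinset with hrts
  have hmR : (f.map (Int.castRingHom ℝ)).Monic := hm.map _
  have hcard : rts.card ≤ n := by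
    calc rts.card ≤ Multiset.card (f.map (Int.castRingHom ℝ)).roots := Multiset.toFinset_card_le _
      _ ≤ (f.map (Int.castRingHom ℝ)).natDegree := Polynomial.card_roots' _
      _ = n := by rw [hm.natDegree_map, hd]
  have hmem : ∀ θ : ℝ, aeval θ f = 0 → θ ∈ rts := by
    intro θ hθ
    rw [hrts, Multiset.mem_toFinset, mem_roots hmR.ne_zero, IsRoot.def, eval_map,
      ← algebraMap_int_eq, ← aeval_def]
    exact hθ
  have hmem' : ∀ θ ∈ rts, aeval θ f = 0 := by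
    intro θ hθ
    rw [hrts, Multiset.mem_toFinset, mem_roots hmR.ne_zero, IsRoot.def, eval_map,
      ← algebraMap_int_eq, ← aeval_def] at hθ
    exact hθ
  set T : ℝ → Set (ℤ × ℤ) := fun θ =>
    {P | Ex n s Q0 f G P ∧ ∀ θ' ∈ rts, |(P.2 : ℝ) / P.1 - θ| ≤ |(P.2 : ℝ) / P.1 - θ'|} with hT
  have hsub : {P | Ex n s Q0 f G P} ⊆ {P | ∃ θ ∈ rts, P ∈ T θ} := by
    intro P hP
    obtain ⟨Q, F, _, hF, _, h0, hbig⟩ := id hP
    obtain ⟨_, θ, hθ, _⟩ := far_pointB hF hf P.1 P.2 (by rw [h0]; simp) _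
      (pow_le_pow_right₀ (one_le_bb hF.hn hF.hQ) (by nlinarith : n + 3 ≤ 600000 * n ^ 2)) hbig
    obtain ⟨θ1, hθ1, hmin⟩ := rts.exists_min_image (fun θ' => |(P.2 : ℝ) / P.1 - θ'|) ⟨θ, hmem θ hθ⟩
    exact ⟨θ1, hθ1, hP, hmin⟩
  have hpts : ∀ θ ∈ rts, ∀ S : Finset (ℤ × ℤ), (∀ P ∈ S, P ∈ T θ) → PtsU n s Q0 f G θ S := fun θ _ S hS =>
    ⟨fun P hP => (hS P hP).1, fun P hP θ' hθ' => (hS P hP).2 θ' (hmem θ' hθ')⟩
  have hfin : ∀ θ ∈ rts, (T θ).Finite := by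
    intro θ hθ
    by_cases hne : (T θ).Nonempty
    · obtain ⟨P1, hP1⟩ := hne
      obtain ⟨M, hM⟩ : ∃ M : ℕ, (|θ| + 1) * |(P1.1 : ℝ)| ^ (2000 * n) + |(P1.1 : ℝ)| ^ (2000 * n) ≤ M := exists_nat_ge _
      refine ((Set.finite_Icc (-(M : ℤ)) M).prod (Set.finite_Icc (-(M : ℤ)) M)).subset ?_
      intro P hP
      have h1 := two_lt hf (hmem' θ hθ) {P1, P} (hpts θ hθ {P1, P} (by
        intro R hR
        rcases mem_insert.1 hR with rfl | hR
        · exact hP1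
        · rw [mem_singleton.1 hR]
          exact hP)) P1 P (mem_insert_self _ _) (mem_insert_of_mem (mem_singleton_self _))
      obtain ⟨a1, a2, a3, a4⟩ := h1
      have hp0 : 0 ≤ |(P1.1 : ℝ)| ^ (2000 * n) := by positivity
      have hx : |(P.1 : ℝ)| ≤ M := by
        have h5 : 0 ≤ (|θ| + 1) * |(P1.1 : ℝ)| ^ (2000 * n) := by positivity
        linarith
      have hy : |(P.2 : ℝ)| ≤ M := by
        have hxne : (P.1 : ℝ) ≠ 0 := by exact_mod_cast a4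
        have e1 : (P.2 : ℝ) = ((P.2 : ℝ) / P.1 - θ) * P.1 + θ * P.1 := by
          field_simp
          ring
        have e2 : |(P.2 : ℝ)| ≤ (|θ| + 1) * |(P.1 : ℝ)| := by
          rw [e1]
          refine (abs_add_le _ _).trans ?_
          rw [abs_mul, abs_mul]
          have h6 : |(P.2 : ℝ) / P.1 - θ| * |(P.1 : ℝ)| ≤ 1 * |(P.1 : ℝ)| :=
            mul_le_mul_of_nonneg_right a3 (abs_nonneg _)
          linarith
        have e3 : (|θ| + 1) * |(P.1 : ℝ)| ≤ (|θ| + 1) * |(P1.1 : ℝ)| ^ (2000 * n) :=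
          mul_le_mul_of_nonneg_left a1.le (by positivity)
        linarith
      have hx' : |P.1| ≤ (M : ℤ) := by exact_mod_cast hx
      have hy' : |P.2| ≤ (M : ℤ) := by exact_mod_cast hy
      exact ⟨⟨(abs_le.1 hx').1, (abs_le.1 hx').2⟩, ⟨(abs_le.1 hy').1, (abs_le.1 hy').2⟩⟩
    · rw [Set.not_nonempty_iff_eq_empty] at hne
      rw [hne]
      exact Set.finite_empty
  have hclass : ∀ θ ∈ rts, Cov (6 * (4 * n * (n + 9))) (T θ) := by
    intro θ hθ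
    have h1 := class_L hs3 hf (hmem' θ hθ) hN (hfin θ hθ).toFinset (hpts θ hθ _ (fun P hP => (Set.Finite.mem_toFinset _).1 hP))
    refine h1.mono le_rfl ?_
    intro P hP
    exact mem_coe.2 ((Set.Finite.mem_toFinset _).2 hP)
  have hU : {P | ∃ θ ∈ rts, P ∈ T θ}.Finite := by
    have h1 := Set.Finite.biUnion rts.finite_toSet hfin
    refine h1.subset ?_
    rintro P ⟨θ, hθ, hP⟩
    exact Set.mem_biUnion (mem_coe.2 hθ) hP
  refine ⟨(cov_biUnion rts T _ hclass).mono ?_ hsub, hU.subset hsub⟩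
  calc rts.card * (6 * (4 * n * (n + 9))) ≤ n * (6 * (4 * n * (n + 9))) := Nat.mul_le_mul_right _ hcard
    _ ≤ 78 * n ^ 3 := by
      have : n * (6 * (4 * n * (n + 9))) = 24 * n ^ 3 + 216 * n ^ 2 := by ring
      rw [this]
      have h5 : 4 * n ^ 2 ≤ n ^ 3 := by nlinarith
      omega

end Pool.Agent.H99.TA
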